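import Mathlib
import Pool.Graph.R_seed8.Y920.EP.Base

set_option autoImplicit false

/-! Subgroups of finite index of the multiplicative group of an infinite field: every class contains
an element `w` such that `1 + w` has the class of one. -/

namespace Pool.Agent.Helper58.EB

open Pool.Agent.Y920.EP

section

variable {F : Type} [Field F] {A : Type} [CommGroup A]

/-- the class of `y - x`, with the value one at zero -/
noncomputable def col (φ : Fˣ →* A) (y x : F) : A :=
  open scoped Classical in if h : y - x = 0 then 1 else φ (Units.mk0 (y - x) h)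

lemma col_unit (φ : Fˣ →* A) {y x : F} {u : Fˣ} (h : (u : F) = y - x) : col φ y x = φ u := by
  have h0 : y - x ≠ 0 := by rw [← h]; exact u.ne_zero
  unfold col
  rw [dif_neg h0]
  congr 1
  ext
  rw [Units.val_mk0, h]

/-- finite sets of any size all whose differences have the same class -/
lemma exists_mono [Infinite F] [Finite A] (φ : Fˣ →* A) (hneg : φ (-1) = 1) :
    ∃ d : A, ∀ m : ℕ, ∃ s : Finset F, s.card = m ∧
      ∀ x ∈ s, ∀ y ∈ s, x ≠ y → col φ y x = d := by
  classical
  let U : Ultrafilter F := Filter.hyperfilter F
  have key : ∀ f : F → A, ∃ a : A, ∀ᶠ x in (U : Filter F), f x = a := by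
    intro f
    obtain ⟨a, ha⟩ := Ultrafilter.eq_pure_of_finite (U.map f)
    refine ⟨a, ?_⟩
    have h1 : ({a} : Set A) ∈ (U.map f : Ultrafilter A) := by
      rw [ha]
      exact rfl
    exact h1
  have hne : ∀ x : F, ∀ᶠ y in (U : Filter F), y ≠ x := by
    intro x
    have h1 : ({x}ᶜ : Set F) ∈ Filter.cofinite := by
      simp
    exact (Filter.hyperfilter_le_cofinite h1)
  choose d hd using fun x : F => key (fun y => col φ y x)
  obtain ⟨e, he⟩ := key d
  refine ⟨e, ?_⟩
  have main : ∀ m : ℕ, ∃ s : Finset F, s.card = m ∧ (∀ x ∈ s, d x = e) ∧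
      ∀ x ∈ s, ∀ y ∈ s, x ≠ y → col φ y x = e := by
    intro m
    induction m with
    | zero => exact ⟨∅, by simp, by simp, by simp⟩
    | succ m ih =>
      obtain ⟨s, hs1, hs2, hs3⟩ := ih
      have h1 : ∀ᶠ y in (U : Filter F), ∀ x ∈ s, col φ y x = e := by
        rw [Filter.eventually_all_finset]
        intro x hx
        rw [← hs2 x hx]
        exact hd x
      have h2 : ∀ᶠ y in (U : Filter F), ∀ x ∈ s, y ≠ x := by
        rw [Filter.eventually_all_finset]
        exact fun x _ => hne x
      obtain ⟨y, ⟨hy1, hy2⟩, hy3⟩ := ((h1.and h2).and he).exists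
      have hys : y ∉ s := fun h => hy2 y h rfl
      refine ⟨insert y s, by rw [Finset.card_insert_of_notMem hys, hs1], ?_, ?_⟩
      · intro x hx
        rcases Finset.mem_insert.1 hx with rfl | hx
        · exact hy3
        · exact hs2 x hx
      · intro x hx z hz hxz
        rcases Finset.mem_insert.1 hx with rfl | hx
        · rcases Finset.mem_insert.1 hz with rfl | hz
          · exact absurd rfl hxz
          · have h3 := hy1 z hz
            have h0 : x - z ≠ 0 := sub_ne_zero.2 hxz
            rw [col_unit φ (u := Units.mk0 _ h0) (Units.val_mk0 _)] at h3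
            rw [col_unit φ (u := -Units.mk0 _ h0) (by rw [Units.val_neg, Units.val_mk0]; ring),
              phi_neg hneg]
            exact h3
        · rcases Finset.mem_insert.1 hz with hzy | hz
          · rw [hzy]
            exact hy1 x hx
          · exact hs3 x hx z hz hxz
  exact fun m => (main m).imp fun s h => ⟨h.1, h.2.2⟩

/-- Every class contains an element `w` such that `1 + w` has the class of one. -/
theorem thick [Infinite F] [Finite A] (φ : Fˣ →* A) (hs : Function.Surjective φ)
    (hneg : φ (-1) = 1) (g : A) : ∃ w : Fˣ, φ w = g ∧ Ml φ w 1 := by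
  classical
  by_contra hcon
  push Not at hcon
  have _ := Fintype.ofFinite A
  obtain ⟨d, hd⟩ := exists_mono φ hneg
  obtain ⟨N, hN⟩ : ∃ N, N = Fintype.card A + 2 := ⟨_, rfl⟩
  obtain ⟨s, hs1, hs2⟩ := hd N
  let e : Fin N ≃ s := (s.equivFinOfCardEq hs1).symm
  have he : ∀ i j : Fin N, i ≠ j → ((e i : F) - e j ≠ 0 ∧
      ∀ u : Fˣ, (u : F) = (e i : F) - e j → φ u = d) := by
    intro i j hij
    have h1 : (e j : F) ≠ e i := fun h => hij (e.injective (Subtype.ext h)).symm
    refine ⟨sub_ne_zero.2 h1.symm, fun u hu => ?_⟩
    rw [← hs2 _ (e j).2 _ (e i).2 h1]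
    exact (col_unit φ hu).symm
  choose c hc using fun h : A => hs (g * h * d⁻¹)
  let z : (A → Fin N) → F := fun f => ∑ h, (c h : F) * (e (f h) : F)
  have hz : ∀ (f : A → Fin N) (h : A) (j : Fin N),
      z (Function.update f h j) - z f = c h * ((e j : F) - e (f h)) := by
    intro f h j
    have h1 : ∀ k, k ≠ h → (c k : F) * (e (Function.update f h j k) : F) - c k * e (f k) = 0 := by
      intro k hk
      rw [Function.update_of_ne hk, sub_self]
    show ∑ k, (c k : F) * (e (Function.update f h j k) : F) - ∑ k, (c k : F) * (e (f k) : F) = _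
    rw [← Finset.sum_sub_distrib, Finset.sum_eq_single h (fun k _ hk => h1 k hk)
      (fun hh => absurd (Finset.mem_univ h) hh), Function.update_self]
    ring
  -- two points of the same colour
  have hclash : ∀ (f : A → Fin N) (h : A) (j : Fin N), j ≠ f h → ∀ u v : Fˣ,
      (u : F) = z f → (v : F) = z (Function.update f h j) → φ u = h → φ v = h → False := by
    intro f h j hj u v hu hv h1 h2
    obtain ⟨h3, h4⟩ := he j (f h) hj
    apply hcon (c h * Units.mk0 _ h3 / u)
    · rw [map_div, map_mul, hc, h4 _ (Units.val_mk0 _), h1]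
      rw [inv_mul_cancel_right, mul_div_cancel_right]
    · refine ⟨v / u, ?_, by rw [map_div, h1, h2, div_self', map_one]⟩
      have hu0 : (u : F) ≠ 0 := u.ne_zero
      rw [Units.val_div_eq_div_val, Units.val_one, Units.val_div_eq_div_val, Units.val_mul,
        Units.val_mk0, ← hz, ← hu, hv]
      field_simp
      ring
  let C : Option A → Finset (A → Fin N) := fun o => Finset.univ.filter fun f =>
    match o with
    | none => z f = 0
    | some h => ∃ u : Fˣ, (u : F) = z f ∧ φ u = h
  let co : Option A → A := fun o => o.getD 1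
  have hC : ∀ o, N * (C o).card ≤ Fintype.card (A → Fin N) := by
    intro o
    have hprod : N * (C o).card = ((Finset.univ : Finset (Fin N)) ×ˢ C o).card := by
      rw [Finset.card_product, Finset.card_fin]
    rw [hprod, ← Finset.card_univ]
    refine Finset.card_le_card_of_injOn (fun q => Function.update q.2 (co o) q.1)
      (fun _ _ => Finset.mem_univ _) ?_
    rintro ⟨i, f⟩ hf ⟨j, f'⟩ hf' hff
    rw [Finset.coe_product, Set.mem_prod] at hf hf'
    dsimp only at hff
    have hij : i = j := by
      have := congrFun hff (co o)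
      rwa [Function.update_self, Function.update_self] at this
    subst hij
    have h1 : f' = Function.update f (co o) (f' (co o)) := by
      funext k
      by_cases hk : k = co o
      · rw [hk, Function.update_self]
      · rw [Function.update_of_ne hk]
        have := congrFun hff k
        rw [Function.update_of_ne hk, Function.update_of_ne hk] at this
        exact this.symm
    by_cases h2 : f' (co o) = f (co o)
    · rw [h2, Function.update_eq_self] at h1
      rw [h1]
    exfalso
    have hfC := (Finset.mem_filter.1 hf.2).2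
    have hfC' := (Finset.mem_filter.1 hf'.2).2
    cases o with
    | none =>
      dsimp only at hfC hfC'
      have h3 := hz f (co none) (f' (co none))
      rw [← h1, hfC, hfC', sub_self] at h3
      rcases mul_eq_zero.1 h3.symm with h4 | h4
      · exact (c (co none)).ne_zero h4
      · exact (he _ _ h2).1 h4
    | some h =>
      obtain ⟨u, hu, hu'⟩ := hfC
      obtain ⟨v, hv, hv'⟩ := hfC'
      rw [h1] at hv
      exact hclash f h _ h2 u v hu hv hu' hv'
  have hcov : (Finset.univ : Finset (A → Fin N)) ⊆ Finset.univ.biUnion C := by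
    intro f _
    rw [Finset.mem_biUnion]
    by_cases h0 : z f = 0
    · exact ⟨none, Finset.mem_univ _, Finset.mem_filter.2 ⟨Finset.mem_univ _, h0⟩⟩
    · exact ⟨some (φ (Units.mk0 _ h0)), Finset.mem_univ _,
        Finset.mem_filter.2 ⟨Finset.mem_univ _, Units.mk0 _ h0, Units.val_mk0 _, rfl⟩⟩
  have h1 : N * Fintype.card (A → Fin N) ≤ (Fintype.card A + 1) * Fintype.card (A → Fin N) := by
    calc N * Fintype.card (A → Fin N) ≤ N * ∑ o, (C o).card := by
          refine Nat.mul_le_mul_left _ ?_
          rw [← Finset.card_univ]
          exact (Finset.card_le_card hcov).trans Finset.card_biUnion_le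
      _ = ∑ o, N * (C o).card := Finset.mul_sum _ _ _
      _ ≤ ∑ _o : Option A, Fintype.card (A → Fin N) := Finset.sum_le_sum fun o _ => hC o
      _ = (Fintype.card A + 1) * Fintype.card (A → Fin N) := by
          rw [Finset.sum_const, Finset.card_univ, Fintype.card_option, smul_eq_mul]
  have h2 : 0 < Fintype.card (A → Fin N) := by
    have : Nonempty (Fin N) := ⟨⟨0, by omega⟩⟩
    exact Fintype.card_pos
  have h3 := Nat.le_of_mul_le_mul_right h1 h2
  omega

end

end Pool.Agent.Helper58.EB
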