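import Mathlib
import Pool.Graph.R_seed8.Y920.EP.Base
import Pool.Graph.R_seed8.Y705.EP.Calc
import Pool.Agent.Helper58.EB.Thick

set_option autoImplicit false

/-! A subgroup of finite index of the multiplicative group of an infinite field for which much
smaller is compatible with sums up to few classes is open for a valuation. -/

namespace Pool.Agent.Helper58.EB

open Pool.Agent.Y920.EP Pool.Agent.Y705.EP

section

variable {F : Type} [Field F] {A : Type} [CommGroup A] {φ : Fˣ →* A}

/-- `r + s = 1` where `r`, `s` and one have different classes -/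
structure Pair (φ : Fˣ →* A) (r s : Fˣ) : Prop where
  sum : (r : F) + s = 1
  r1 : φ r ≠ 1
  s1 : φ s ≠ 1
  sr : φ s ≠ φ r

variable {M : ℕ} {r s : Fˣ}

lemma Pair.en (h : φ (-1) = 1) (hL : HL φ M) (hp : Pair φ r s) : En φ M r :=
  (t_CALC F A φ M h hL).2.2 r s hp.sum hp.r1 hp.s1 hp.sr

lemma Pair.quot (h : φ (-1) = 1) (hp : Pair φ r s) : Pair φ (-s / r) (1 / r) := by
  have hr : (r : F) ≠ 0 := r.ne_zero
  refine ⟨?_, ?_, ?_, ?_⟩
  · rw [Units.val_div_eq_div_val, Units.val_div_eq_div_val, Units.val_neg, Units.val_one,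
      ← add_div, div_eq_one_iff_eq hr]
    linear_combination (-1) * hp.sum
  · rw [map_div, phi_neg h]
    exact fun e => hp.sr (div_eq_one.1 e)
  · rw [map_div, map_one, one_div]
    exact fun e => hp.r1 (inv_eq_one.1 e)
  · rw [map_div, map_div, map_one, phi_neg h]
    intro e
    exact hp.s1 (div_left_injective e).symm

/-- any two elements are comparable -/
lemma comp (h : φ (-1) = 1) (hL : HL φ M) (hp : Pair φ r s) (x : Fˣ) :
    Le φ (3 * M) 1 x ∨ Le φ (3 * M) x 1 := by
  obtain ⟨c1, -, -⟩ := t_CALC F A φ M h hL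
  by_cases hx : φ x = 1
  · have h1 : φ (x * r) ≠ 1 := by rw [map_mul, hx, one_mul]; exact hp.r1
    have h2 : Le φ M x (x * r) := by
      have := le_mul x (hp.en h hL).1
      rwa [mul_one] at this
    have h3 : Le φ M (x * r) x := by
      have := le_mul x (hp.en h hL).2
      rwa [mul_one] at this
    rcases c1 _ h1 with h4 | h4
    · left
      exact le_mono (by omega) (le_tr h4 h3)
    · right
      exact le_mono (by omega) (le_tr h2 h4)
  · rcases c1 _ hx with h4 | h4
    · exact Or.inl (le_mono (by omega) h4)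
    · exact Or.inr (le_mono (by omega) h4)

lemma neg_le (h : φ (-1) = 1) (hL : HL φ M) (hp : Pair φ r s) : Le φ (3 * M) (-1) 1 := by
  rcases comp h hL hp (-1) with h1 | h1
  · have := le_mul (-1) h1
    rwa [mul_one, neg_mul_neg, one_mul] at this
  · exact h1

lemma small1 (h : φ (-1) = 1) (hL : HL φ M) {x : Fˣ} (hx : φ x ≠ 1) (hs : ¬ Le φ (2 * M) 1 x) :
    Ml φ x 1 := by
  obtain ⟨z, hz⟩ := exists_one_add h hx
  by_contra hc
  apply hs
  have h1 : φ z ≠ 1 := fun e => hc ⟨z, by rw [hz, Units.val_one], by rw [e, map_one]⟩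
  rw [two_mul]
  exact le_tr (forw hL hz hx).1 (back h hL hz h1)

lemma ml_unit {x : Fˣ} (hx : Ml φ x 1) : ∃ z : Fˣ, (z : F) = 1 + x ∧ φ z = 1 := by
  obtain ⟨z, hz, e⟩ := hx
  exact ⟨z, by rw [hz, Units.val_one], by rw [e, map_one]⟩

/-- elements which are not `≥ 1` are much smaller than one -/
lemma small (h : φ (-1) = 1) (hL : HL φ M) (hp : Pair φ r s) {x : Fˣ}
    (hs : ¬ Le φ (4 * M) 1 x) : Ml φ x 1 := by
  by_cases hx : φ x = 1
  swap
  · exact small1 h hL hx fun h1 => hs (le_mono (by omega) h1)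
  have hr0 : (r : F) ≠ 0 := r.ne_zero
  have hr := hp.en h hL
  have hxr : φ (x / r) ≠ 1 := by
    rw [map_div, hx, one_div]
    exact fun e => hp.r1 (inv_eq_one.1 e)
  have h1 : Ml φ (x / r) 1 := by
    refine small1 h hL hxr fun h2 => hs ?_
    have h3 := le_mul r h2
    rw [mul_one, mul_div_cancel] at h3
    exact le_mono (by omega) (le_tr hr.1 h3)
  obtain ⟨t, ht, hte⟩ := ml_unit h1
  have ht0 : (t : F) ≠ 0 := t.ne_zero
  have hq : φ (-s / r * (x / t)) ≠ 1 := by
    rw [map_mul, map_div, map_div, phi_neg h, hx, hte, div_one, mul_one]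
    exact fun e => hp.sr (div_eq_one.1 e)
  have h2 : Ml φ (-s / r * (x / t)) 1 := by
    refine small1 h hL hq fun h3 => hs ?_
    have h4 := le_mul (x / t) ((hp.quot h).en h hL).2
    rw [mul_one, mul_comm (x / t)] at h4
    have h5 : Le φ M 1 t := (forw hL ht hxr).1
    have h6 := le_mul (x / t) h5
    rw [mul_one, div_mul_cancel] at h6
    exact le_mono (by omega) (le_tr (le_tr h3 h4) h6)
  obtain ⟨z, hz, hze⟩ := ml_unit h2
  refine ⟨t * z, ?_, by rw [map_mul, hte, hze, map_one, one_mul]⟩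
  rw [Units.val_mul, hz, Units.val_mul, Units.val_div_eq_div_val, Units.val_div_eq_div_val,
    Units.val_neg, Units.val_one]
  have e1 : (t : F) * (1 + -(s : F) / r * (x / t)) = t - s / r * x := by
    field_simp
    ring
  rw [e1, ht, Units.val_div_eq_div_val]
  have e2 : (s : F) = 1 - r := by linear_combination hp.sum
  rw [e2]
  field_simp
  ring

/-! ### sums of small elements -/

/-- `x` and `-x` are not `≥ 1` -/
def Sm (φ : Fˣ →* A) (k : ℕ) (x : Fˣ) : Prop := ¬ Le φ k 1 x ∧ ¬ Le φ k 1 (-x)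

/-- the small elements -/
def sset (φ : Fˣ →* A) (M : ℕ) : Set F := {x | ∃ u : Fˣ, (u : F) = x ∧ Sm φ (8 * M) u}

/-- `1 + x` has the class of one and `r + x` has the class of `r` -/
def Good (φ : Fˣ →* A) (r : Fˣ) (x : F) : Prop :=
  (∃ z : Fˣ, (z : F) = 1 + x ∧ φ z = 1) ∧ ∃ z : Fˣ, (z : F) = r + x ∧ φ z = φ r

lemma good_add (h : φ (-1) = 1) (hL : HL φ M) (hp : Pair φ r s) {x : F} (hx : Good φ r x)
    {y : Fˣ} (hy : ¬ Le φ (8 * M) 1 y) : Good φ r (x + y) := by
  obtain ⟨⟨a, ha, ha1⟩, b, hb, hb1⟩ := hx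
  have hr := hp.en h hL
  have ha0 : (a : F) ≠ 0 := a.ne_zero
  have hb0 : (b : F) ≠ 0 := b.ne_zero
  -- `1 ≤ 1 + x` and `r ≤ r + x`
  have h1 : Le φ (3 * M) 1 a ∧ Le φ (3 * M) r b := by
    by_cases hx0 : x = 0
    · have e1 : a = 1 := Units.ext (by rw [ha, hx0, add_zero, Units.val_one])
      have e2 : b = r := Units.ext (by rw [hb, hx0, add_zero])
      rw [e1, e2]
      exact ⟨le_mono (Nat.zero_le _) (le_refl' 0 _), le_mono (Nat.zero_le _) (le_refl' 0 _)⟩
    obtain ⟨u, hu⟩ : ∃ u : Fˣ, (u : F) = x := ⟨Units.mk0 x hx0, Units.val_mk0 _⟩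
    rw [← hu] at ha hb
    constructor
    · by_cases hu1 : φ u = 1
      · have h2 : Le φ M r b := (hL r u b hb (by rw [hu1]; exact hp.r1)).1
        have h3 : Le φ M b a := by
          refine (hL b s a ?_ ?_).1
          · rw [ha, hb]; linear_combination (-1) * hp.sum
          · rw [hb1]; exact fun e => hp.sr e.symm
        exact le_mono (by omega) (le_tr (le_tr hr.1 h2) h3)
      · exact le_mono (by omega) (forw hL ha hu1).1
    · by_cases hur : φ u = φ r
      · have h2 : Le φ M 1 a := (forw hL ha (by rw [hur]; exact hp.r1)).1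
        have h3 : Le φ M a b := by
          refine (hL a (-s) b ?_ ?_).1
          · rw [ha, hb, Units.val_neg]; linear_combination hp.sum
          · rw [ha1, phi_neg h]; exact fun e => hp.s1 e.symm
        exact le_mono (by omega) (le_tr (le_tr hr.2 h2) h3)
      · exact le_mono (by omega) (hL r u b hb (fun e => hur e.symm)).1
  constructor
  · have h2 : Ml φ (y / a) 1 := by
      refine small h hL hp fun h3 => hy ?_
      have h4 := le_mul a h3
      rw [mul_one, mul_div_cancel] at h4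
      exact le_mono (by omega) (le_tr h1.1 h4)
    obtain ⟨z, hz, hze⟩ := ml_unit h2
    refine ⟨a * z, ?_, by rw [map_mul, ha1, hze, one_mul]⟩
    rw [Units.val_mul, hz, Units.val_div_eq_div_val, mul_add, mul_one, mul_div_cancel₀ _ ha0, ha]
    ring
  · have h2 : Ml φ (y / b) 1 := by
      refine small h hL hp fun h3 => hy ?_
      have h4 := le_mul b h3
      rw [mul_one, mul_div_cancel] at h4
      exact le_mono (by omega) (le_tr (le_tr hr.1 h1.2) h4)
    obtain ⟨z, hz, hze⟩ := ml_unit h2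
    refine ⟨b * z, ?_, by rw [map_mul, hb1, hze, mul_one]⟩
    rw [Units.val_mul, hz, Units.val_div_eq_div_val, mul_add, mul_one, mul_div_cancel₀ _ hb0, hb]
    ring

/-- the additive group generated by the small elements -/
def grp (φ : Fˣ →* A) (M : ℕ) : AddSubgroup F := AddSubgroup.closure (sset φ M)

lemma good_grp (h : φ (-1) = 1) (hL : HL φ M) (hp : Pair φ r s) {x : F} (hx : x ∈ grp φ M) :
    Good φ r x := by
  unfold grp at hx
  induction hx using AddSubgroup.closure_induction_right with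
  | zero =>
    exact ⟨⟨1, by rw [Units.val_one, add_zero], map_one _⟩, r, by rw [add_zero], rfl⟩
  | add_right x hx y hy ih =>
    obtain ⟨u, rfl, hu⟩ := hy
    exact good_add h hL hp ih hu.1
  | add_neg_cancel x hx y hy ih =>
    obtain ⟨u, rfl, hu⟩ := hy
    have := good_add h hL hp ih hu.2
    rwa [Units.val_neg] at this

/-- The main construction. -/
theorem exists_open (h : φ (-1) = 1) (hL : HL φ M) (hp : Pair φ r s) {x : Fˣ}
    (hx : ¬ Le φ (19 * M) 1 x) :
    ∃ (V : ValuationSubring F) (c : Fˣ), (c : F) ∈ V ∧ ((c⁻¹ : Fˣ) : F) ∉ V ∧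
      ∀ v ∈ V, ∃ z : Fˣ, (z : F) = 1 + c * v ∧ φ z = 1 := by
  classical
  have hneg := neg_le h hL hp
  -- the ring of multipliers
  let R : Subring F :=
    { carrier := {y | ∀ g ∈ grp φ M, y * g ∈ grp φ M}
      mul_mem' := by
        intro a b ha hb g hg
        rw [mul_assoc]
        exact ha _ (hb _ hg)
      one_mem' := by
        intro g hg
        rwa [one_mul]
      add_mem' := by
        intro a b ha hb g hg
        rw [add_mul]
        exact add_mem (ha g hg) (hb g hg)
      zero_mem' := by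
        intro g hg
        rw [zero_mul]
        exact zero_mem _
      neg_mem' := by
        intro a ha g hg
        rw [neg_mul]
        exact neg_mem (ha g hg) }
  have hbd : ∀ u : Fˣ, ¬ Le φ (8 * M) 1 u → Le φ (3 * M) u 1 := by
    intro u hu
    rcases comp h hL hp u with h1 | h1
    · exact absurd (le_mono (by omega) h1) hu
    · exact h1
  have hR : ∀ y : Fˣ, ¬ Le φ (11 * M) 1 y → (y : F) ∈ R := by
    intro y hy g hg
    have hmul : ∀ u : Fˣ, ¬ Le φ (8 * M) 1 u → ¬ Le φ (8 * M) 1 (y * u) := by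
      intro u hu h1
      apply hy
      have h2 := le_mul y (hbd u hu)
      rw [mul_one] at h2
      exact le_mono (by omega) (le_tr h1 h2)
    unfold grp at hg ⊢
    induction hg using AddSubgroup.closure_induction with
    | mem g hg =>
      obtain ⟨u, rfl, hu⟩ := hg
      apply AddSubgroup.subset_closure
      refine ⟨y * u, Units.val_mul _ _, hmul u hu.1, ?_⟩
      rw [← mul_neg]
      exact hmul _ hu.2
    | zero => rw [mul_zero]; exact zero_mem _
    | add g g' _ _ h1 h2 => rw [mul_add]; exact add_mem h1 h2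
    | neg g _ h1 => rw [mul_neg]; exact neg_mem h1
  have hxR : (x : F) ∈ R := hR x fun h1 => hx (le_mono (by omega) h1)
  have hxS : (x : F) ∈ grp φ M := by
    apply AddSubgroup.subset_closure
    refine ⟨x, rfl, fun h1 => hx (le_mono (by omega) h1), fun h1 => hx ?_⟩
    have h2 := le_mul x hneg
    rw [mul_one, mul_neg, mul_one] at h2
    exact le_mono (by omega) (le_tr h1 h2)
  have hxinv : ((x⁻¹ : Fˣ) : F) ∉ R := by
    intro h1
    have h2 := h1 _ hxS
    rw [Units.inv_mul] at h2
    obtain ⟨⟨z, hz, -⟩, -⟩ := good_grp h hL hp (neg_mem h2)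
    apply z.ne_zero
    rw [hz]
    ring
  have hI : (Ideal.span {(⟨(x : F), hxR⟩ : R)}) ≠ ⊤ := by
    intro h1
    rw [Ideal.span_singleton_eq_top, isUnit_iff_exists_inv] at h1
    obtain ⟨y, hy⟩ := h1
    apply hxinv
    have h2 : (x : F) * y = 1 := congrArg Subtype.val hy
    have h3 : ((x⁻¹ : Fˣ) : F) = y := by
      rw [Units.val_inv_eq_inv_val]
      exact inv_eq_of_mul_eq_one_right h2
    rw [h3]
    exact y.2
  obtain ⟨V, hV1, hV2⟩ := Ideal.image_subset_nonunits_valuationSubring _ hI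
  have hxV : (x : F) ∈ V := hV1 hxR
  have hxVi : ((x⁻¹ : Fˣ) : F) ∉ V := by
    have h1 : (x : F) ∈ V.nonunits := hV2 ⟨_, Ideal.subset_span rfl, rfl⟩
    rw [Units.val_inv_eq_inv_val]
    intro h2
    rw [ValuationSubring.mem_nonunits_iff] at h1
    have h3 := (V.valuation_le_one_iff _).2 h2
    rw [map_inv₀] at h3
    have h4 : V.valuation (x : F) ≠ 0 := by
      rw [Valuation.ne_zero_iff]
      exact x.ne_zero
    have h5 : (1 : V.ValueGroup) < (V.valuation (x : F))⁻¹ :=
      (one_lt_inv₀ (zero_lt_iff.2 h4)).2 h1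
    exact absurd h3 (not_le.2 h5)
  have hb : ∀ v : Fˣ, (v : F) ∈ V → Le φ (11 * M) (x * v) 1 := by
    intro v hv
    by_contra h1
    have h2 : ¬ Le φ (11 * M) 1 (x * v)⁻¹ := by
      intro h3
      apply h1
      have h4 := le_mul (x * v) h3
      rwa [mul_one, mul_inv_cancel] at h4
    have h3 : (((x * v)⁻¹ : Fˣ) : F) ∈ V := hV1 (hR _ h2)
    apply hxVi
    have h4 := V.mul_mem _ _ hv h3
    rw [← Units.val_mul] at h4
    have e1 : v * (x * v)⁻¹ = x⁻¹ := by
      rw [mul_inv, mul_comm, inv_mul_cancel_right]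
    rwa [e1] at h4
  have hsm : ∀ v : Fˣ, (v : F) ∈ V → ¬ Le φ (8 * M) 1 (x * (x * v)) := by
    intro v hv h1
    apply hx
    have h2 := le_mul x (hb v hv)
    rw [mul_one] at h2
    exact le_mono (by omega) (le_tr h1 h2)
  refine ⟨V, x * x, ?_, ?_, ?_⟩
  · rw [Units.val_mul]
    exact V.mul_mem _ _ hxV hxV
  · intro h1
    apply hxVi
    have h2 := V.mul_mem _ _ hxV h1
    rw [← Units.val_mul] at h2
    have e1 : x * (x * x)⁻¹ = x⁻¹ := by
      rw [mul_inv, mul_inv_cancel_left]
    rwa [e1] at h2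
  · intro v hv
    by_cases hv0 : v = 0
    · refine ⟨1, ?_, map_one _⟩
      rw [hv0, mul_zero, add_zero, Units.val_one]
    obtain ⟨w, rfl⟩ : ∃ w : Fˣ, (w : F) = v := ⟨Units.mk0 v hv0, Units.val_mk0 _⟩
    have h1 : (((x * (x * w) : Fˣ)) : F) ∈ grp φ M := by
      apply AddSubgroup.subset_closure
      refine ⟨_, rfl, hsm w hv, ?_⟩
      rw [← mul_neg, ← mul_neg]
      refine hsm (-w) ?_
      rw [Units.val_neg]
      exact V.neg_mem _ hv
    obtain ⟨⟨z, hz, hz1⟩, -⟩ := good_grp h hL hp h1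
    refine ⟨z, ?_, hz1⟩
    rw [hz, Units.val_mul, Units.val_mul, Units.val_mul]
    ring

end

end Pool.Agent.Helper58.EB
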