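import Mathlib
import Pool.Agent.Helper58.EB.Open

set_option autoImplicit false

/-! One-units and `p`-th powers in valued fields. -/

namespace Pool.Agent.Helper58.EB

open Pool.Agent.Y920.EP Pool.Agent.Y705.EP

section

variable {F : Type} [Field F] {A : Type} [CommGroup A] {φ : Fˣ →* A}

/-- the one-units of `O` have the class of one -/
def Cmp (φ : Fˣ →* A) (O : ValuationSubring F) : Prop :=
  ∀ x : F, O.valuation x < 1 → ∃ u : Fˣ, (u : F) = 1 + x ∧ φ u = 1

lemma val_one_add (O : ValuationSubring F) {x : F} (hx : O.valuation x < 1) :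
    O.valuation (1 + x) = 1 := by
  rw [Valuation.map_one_add_of_lt O.valuation hx]

lemma exists_unit_one_add (O : ValuationSubring F) {x : F} (hx : O.valuation x < 1) :
    ∃ u : Fˣ, (u : F) = 1 + x ∧ O.valuation (u : F) = 1 := by
  have h1 := val_one_add O hx
  have h0 : (1 : F) + x ≠ 0 := by
    intro e
    rw [e, map_zero] at h1
    exact zero_ne_one h1
  exact ⟨Units.mk0 _ h0, Units.val_mk0 _, by rw [Units.val_mk0]; exact h1⟩

lemma val_ne (O : ValuationSubring F) (u : Fˣ) : O.valuation (u : F) ≠ 0 := by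
  rw [Valuation.ne_zero_iff]
  exact u.ne_zero

lemma val_pos (O : ValuationSubring F) (u : Fˣ) : 0 < O.valuation (u : F) :=
  zero_lt_iff.2 (val_ne O u)

/-- products of one-units -/
lemma exists_prod_one_add (O : ValuationSubring F) {ι : Type} (s : Finset ι) (f : ι → F)
    (hf : ∀ i ∈ s, O.valuation (f i) < 1) :
    ∃ μ : F, O.valuation μ < 1 ∧ ∏ i ∈ s, (1 + f i) = 1 + μ := by
  classical
  induction s using Finset.induction_on with
  | empty => exact ⟨0, by rw [map_zero]; exact zero_lt_one, by simp⟩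
  | insert a s ha ih =>
    obtain ⟨μ, hμ, e⟩ := ih fun i hi => hf i (Finset.mem_insert_of_mem hi)
    have h1 := hf a (Finset.mem_insert_self a s)
    refine ⟨f a + μ + f a * μ, ?_, ?_⟩
    · refine Valuation.map_add_lt _ (Valuation.map_add_lt _ h1 hμ) ?_
      rw [map_mul]
      exact mul_lt_one_of_nonneg_of_lt_one_left zero_le h1 hμ.le
    · rw [Finset.prod_insert ha, e]
      ring

variable {p : ℕ} (hp : p.Prime) (hp2 : p ≠ 2) {ζ : Fˣ} (hζ : IsPrimitiveRoot ζ p)
  (O : ValuationSubring F)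

include hζ hp in
lemma val_zeta : O.valuation (ζ : F) = 1 := by
  have h1 : O.valuation (ζ : F) ^ p = 1 := by
    rw [← map_pow, ← Units.val_pow_eq_pow_val, hζ.pow_eq_one, Units.val_one, map_one]
  exact (pow_eq_one_iff_of_nonneg zero_le hp.ne_zero).1 h1

include hp hζ in
/-- `1 - η` for the roots of unity `η` -/
lemma val_one_sub {η : F} (hη : η ∈ Polynomial.nthRootsFinset p (1 : F)) :
    O.valuation (1 - η) ≤ O.valuation (1 - (ζ : F)) := by
  have _ : NeZero p := ⟨hp.ne_zero⟩
  have hζF : IsPrimitiveRoot (ζ : F) p := by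
    rwa [IsPrimitiveRoot.coe_units_iff]
  rw [Polynomial.mem_nthRootsFinset hp.pos] at hη
  obtain ⟨i, -, rfl⟩ := hζF.eq_pow_of_pow_eq_one hη
  have hz := val_zeta hp hζ O
  have hzO : (ζ : F) ∈ O := (O.valuation_le_one_iff _).1 hz.le
  have e : (1 : F) - (ζ : F) ^ i = (1 - (ζ : F)) * ∑ k ∈ Finset.range i, (ζ : F) ^ k := by
    rw [mul_comm]
    have := geom_sum_mul (ζ : F) i
    linear_combination this
  rw [e, map_mul]
  refine mul_le_of_le_one_right zero_le ((O.valuation_le_one_iff _).2 ?_)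
  exact sum_mem fun k _ => pow_mem hzO k

include hp hp2 hζ in
/-- if the residue characteristic is `p` then `1 - ζ` is not a unit -/
lemma val_lam (hpO : O.valuation (p : F) < 1) : O.valuation (1 - (ζ : F)) < 1 := by
  have hz := val_zeta hp hζ O
  have hzO : (ζ : F) ∈ O := (O.valuation_le_one_iff _).1 hz.le
  obtain ⟨r, hr⟩ := exists_add_pow_prime_eq hp (1 : O) (-(⟨ζ, hzO⟩ : O))
  have hodd : Odd p := hp.odd_of_ne_two hp2
  have e1 : (1 - (ζ : F)) ^ p = p * (-(ζ : F) * r) := by
    have h1 := congrArg (Subtype.val) hr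
    push_cast at h1
    rw [sub_eq_add_neg, h1, one_pow, hodd.neg_pow, ← Units.val_pow_eq_pow_val, hζ.pow_eq_one,
      Units.val_one]
    ring
  have h2 : O.valuation (1 - (ζ : F)) ^ p < 1 := by
    rw [← map_pow, e1, map_mul]
    refine mul_lt_one_of_nonneg_of_lt_one_left zero_le hpO ?_
    rw [O.valuation_le_one_iff]
    exact O.mul_mem _ _ (O.neg_mem _ hzO) r.2
  exact (pow_lt_one_iff_of_nonneg zero_le hp.ne_zero).1 h2

include hp hζ in
/-- differences of `p`-th powers -/
lemma exists_sub_pow {x y : F} (hxy : O.valuation (1 - (ζ : F)) * O.valuation y <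
    O.valuation (x - y)) :
    ∃ μ : F, O.valuation μ < 1 ∧ x ^ p - y ^ p = (x - y) ^ p * (1 + μ) := by
  have _ : NeZero p := ⟨hp.ne_zero⟩
  have hζF : IsPrimitiveRoot (ζ : F) p := by
    rwa [IsPrimitiveRoot.coe_units_iff]
  have h0 : x - y ≠ 0 := by
    intro e
    rw [e, map_zero] at hxy
    exact absurd hxy (not_lt.2 zero_le)
  obtain ⟨μ, hμ, e⟩ := exists_prod_one_add O (Polynomial.nthRootsFinset p (1 : F))
    (fun η => (1 - η) * y / (x - y)) (by
      intro η hη
      rw [map_div₀, map_mul]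
      rw [div_lt_one₀ (zero_lt_iff.2 ((Valuation.ne_zero_iff _).2 h0))]
      exact (mul_le_mul_left (val_one_sub hp hζ O hη) _).trans_lt hxy)
  refine ⟨μ, hμ, ?_⟩
  have e2 : (x - y) ^ p = ∏ _η ∈ Polynomial.nthRootsFinset p (1 : F), (x - y) := by
    rw [Finset.prod_const, hζF.card_nthRootsFinset]
  rw [← e, hζF.pow_sub_pow_eq_prod_sub_mul x y hp.pos, e2, ← Finset.prod_mul_distrib]
  refine Finset.prod_congr rfl fun η _ => ?_
  field_simp
  ring

include hp hζ in
/-- the `p`-th powers close to one -/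
lemma star {x t : F} (hx : O.valuation (1 - (ζ : F)) ^ p < O.valuation x) (ht : 1 + x = t ^ p) :
    ∃ (y : Fˣ) (μ : F), O.valuation μ < 1 ∧ x = (y : F) ^ p * (1 + μ) := by
  have _ : NeZero p := ⟨hp.ne_zero⟩
  have hζF : IsPrimitiveRoot (ζ : F) p := by
    rwa [IsPrimitiveRoot.coe_units_iff]
  have hx1 : x = t ^ p - 1 ^ p := by
    rw [one_pow, ← ht]
    ring
  have hxy : O.valuation (1 - (ζ : F)) * O.valuation 1 < O.valuation (t - 1) := by
    rw [map_one, mul_one]
    by_contra hc
    rw [not_lt] at hc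
    apply absurd hx
    have e2 : O.valuation (1 - (ζ : F)) ^ p =
        ∏ _η ∈ Polynomial.nthRootsFinset p (1 : F), O.valuation (1 - (ζ : F)) := by
      rw [Finset.prod_const, hζF.card_nthRootsFinset]
    rw [not_lt, hx1, hζF.pow_sub_pow_eq_prod_sub_mul t 1 hp.pos, map_prod, e2]
    refine Finset.prod_le_prod' fun η hη => ?_
    have e : t - η * 1 = (t - 1) + (1 - η) := by ring
    rw [e]
    exact Valuation.map_add_le _ hc (val_one_sub hp hζ O hη)
  obtain ⟨μ, hμ, e⟩ := exists_sub_pow hp hζ O hxy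
  have h0 : t - 1 ≠ 0 := by
    intro e
    rw [e, map_zero] at hxy
    exact absurd hxy (not_lt.2 zero_le)
  refine ⟨Units.mk0 _ h0, μ, hμ, ?_⟩
  rw [Units.val_mk0, ← e]
  exact hx1

/-- Newton's method: if `p` is a unit and the elements close enough to one are `p`-th powers then
all one-units are `p`-th powers. -/
lemma newton (hpO : O.valuation (p : F) = 1) (hk : ∀ u : Fˣ, φ u = 1 ↔ ∃ c : Fˣ, u = c ^ p)
    {d : Fˣ} (hd : ∀ v : F, O.valuation v ≤ O.valuation (d : F) →
      ∃ u : Fˣ, (u : F) = 1 + v ∧ φ u = 1)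
    {x : F} (hx : O.valuation x < 1) (hxd : ∃ j : ℕ, O.valuation x ^ j ≤ O.valuation (d : F)) :
    ∃ u : Fˣ, (u : F) = 1 + x ∧ φ u = 1 := by
  have hp0 : (p : F) ≠ 0 := by
    intro e
    rw [e, map_zero] at hpO
    exact zero_ne_one hpO
  have key : ∀ i : ℕ, ∃ (t : Fˣ) (e : F), 1 + x = (t : F) ^ p * (1 + e) ∧
      O.valuation e ≤ O.valuation x ^ (2 ^ i) := by
    intro i
    induction i with
    | zero => exact ⟨1, x, by simp, by simp⟩
    | succ i ih =>
      obtain ⟨t, e, h1, h2⟩ := ih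
      have h3 : O.valuation e < 1 :=
        h2.trans_lt (pow_lt_one₀ zero_le hx (pow_ne_zero _ two_ne_zero))
      have h4 : O.valuation (e / p) = O.valuation e := by
        rw [map_div₀, hpO, div_one]
      obtain ⟨a, ha, ha1⟩ := exists_unit_one_add O (x := e / p) (by rw [h4]; exact h3)
      have heO : e / p ∈ O := (O.valuation_le_one_iff _).1 (by rw [h4]; exact h3.le)
      obtain ⟨k, hk⟩ := Polynomial.powAddExpansion (1 : O) ⟨e / p, heO⟩ p
      have h5 : (a : F) ^ p = 1 + e + k * (e / p) ^ 2 := by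
        have := congrArg Subtype.val hk
        push_cast at this
        rw [ha, this]
        field_simp
        ring
      have ha0 : (a : F) ≠ 0 := a.ne_zero
      refine ⟨t * a, -(k * (e / p) ^ 2) / (a : F) ^ p, ?_, ?_⟩
      · rw [h1, Units.val_mul, mul_pow, mul_assoc]
        congr 1
        rw [mul_add, mul_one, mul_div_cancel₀ _ (pow_ne_zero _ ha0), h5]
        ring
      · rw [map_div₀, Valuation.map_neg, map_pow, ha1, one_pow, div_one, map_mul, map_pow, h4]
        calc O.valuation (k : F) * O.valuation e ^ 2 ≤ 1 * O.valuation e ^ 2 :=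
              mul_le_mul_left ((O.valuation_le_one_iff _).2 k.2) _
          _ ≤ (O.valuation x ^ 2 ^ i) ^ 2 := by
              rw [one_mul]
              exact pow_le_pow_left₀ zero_le h2 2
          _ = O.valuation x ^ 2 ^ (i + 1) := by rw [← pow_mul, pow_succ]
  obtain ⟨j, hj⟩ := hxd
  obtain ⟨t, e, h1, h2⟩ := key j
  have h3 : O.valuation e ≤ O.valuation (d : F) := by
    refine (h2.trans ?_).trans hj
    exact pow_le_pow_right_of_le_one' hx.le (Nat.lt_two_pow_self).le
  obtain ⟨u, hu, hu1⟩ := hd e h3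
  refine ⟨t ^ p * u, ?_, ?_⟩
  · rw [Units.val_mul, Units.val_pow_eq_pow_val, hu, h1]
  · rw [map_mul, hu1, mul_one, hk]
    exact ⟨t, rfl⟩

include hp hp2 hζ in
/-- In the presence of a nonrigid class compatible rings have residue characteristic not `p`. -/
lemma not_res {r s : Fˣ} (h : φ (-1) = 1) (hP : Pair φ r s)
    (hk : ∀ u : Fˣ, φ u = 1 ↔ ∃ c : Fˣ, u = c ^ p) (hC : Cmp φ O) :
    ¬ O.valuation (p : F) < 1 := by
  intro hpO
  have hlam := val_lam hp hp2 hζ O hpO
  have hl0 : (1 : F) - ζ ≠ 0 := by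
    intro e
    have h1 : ζ = 1 := by
      ext
      rw [Units.val_one]
      linear_combination (-1) * e
    rw [h1] at hζ
    have := hζ.unique IsPrimitiveRoot.one
    exact hp.one_lt.ne' this
  obtain ⟨l, hl⟩ : ∃ l : Fˣ, (l : F) = 1 - ζ := ⟨Units.mk0 _ hl0, Units.val_mk0 _⟩
  rw [← hl] at hlam
  -- the classes of units
  have hu : ∀ u : Fˣ, O.valuation (u : F) = 1 → φ (l * u) = 1 := by
    intro u hu
    have h1 : O.valuation ((l : F) * u) < 1 := by
      rw [map_mul, hu, mul_one]
      exact hlam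
    obtain ⟨z, hz, hz1⟩ := hC _ h1
    obtain ⟨t, rfl⟩ := (hk _).1 hz1
    rw [Units.val_pow_eq_pow_val] at hz
    obtain ⟨y, μ, hμ, e⟩ := star hp hζ O (x := (l : F) * u) (t := t) (by
      rw [map_mul, hu, mul_one, ← hl]
      exact pow_lt_self_of_lt_one₀ (val_pos O l) hlam hp.one_lt) hz.symm
    obtain ⟨w, hw, hw1⟩ := hC μ hμ
    have e1 : l * u = y ^ p * w := by
      ext
      rw [Units.val_mul, e, Units.val_mul, Units.val_pow_eq_pow_val, hw]
    rw [e1, map_mul, hw1, mul_one, hk]
    exact ⟨y, rfl⟩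
  have h1 : φ l = 1 := by
    have := hu 1 (by rw [Units.val_one, map_one])
    rwa [mul_one] at this
  have hu' : ∀ u : Fˣ, O.valuation (u : F) = 1 → φ u = 1 := by
    intro u h2
    have := hu u h2
    rwa [map_mul, h1, one_mul] at this
  apply hP.r1
  apply hu'
  rcases lt_trichotomy (O.valuation (r : F)) 1 with h2 | h2 | h2
  · exfalso
    obtain ⟨z, hz, hz1⟩ := hC (-(r : F)) (by rw [Valuation.map_neg]; exact h2)
    apply hP.s1
    rw [← hz1]
    congr 1
    ext
    rw [hz]
    linear_combination hP.sum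
  · exact h2
  · exfalso
    have h3 : O.valuation (-(r : F)⁻¹) < 1 := by
      rw [Valuation.map_neg, map_inv₀]
      exact inv_lt_one_of_one_lt₀ h2
    obtain ⟨z, hz, hz1⟩ := hC _ h3
    apply hP.sr
    have e1 : s = -(z * r) := by
      ext
      rw [Units.val_neg, Units.val_mul, hz]
      have hr0 : (r : F) ≠ 0 := r.ne_zero
      field_simp
      linear_combination hP.sum
    rw [e1, phi_neg h, map_mul, hz1, one_mul]

end

end Pool.Agent.Helper58.EB
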