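import Mathlib
import Pool.Agent.Helper58.EB.Val

set_option autoImplicit false

/-! From weakly compatible valuation rings to compatible ones. -/

namespace Pool.Agent.Helper58.EB

open Pool.Agent.Y920.EP Pool.Agent.Y705.EP

section

variable {F : Type} [Field F] {A : Type} [CommGroup A] {φ : Fˣ →* A}
  {p : ℕ} (hp : p.Prime) (hp2 : p ≠ 2) {ζ : Fˣ} (hζ : IsPrimitiveRoot ζ p)
  (O : ValuationSubring F)

/-- the classes of the nonzero values of `x + a y` for `x` and `y` of trivial class or zero -/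
def Vv (φ : Fˣ →* A) (a : A) : Set A :=
  {c | c = 1 ∨ c = a ∨ ∃ u v : Fˣ, φ u = a ∧ (v : F) = 1 + u ∧ φ v = c}

/-- the classes of the one-units -/
def BB (φ : Fˣ →* A) (O : ValuationSubring F) : Subgroup A := O.principalUnitGroup.map φ

lemma mem_BB {u : Fˣ} (hu : O.valuation ((u : F) - 1) < 1) : φ u ∈ BB φ O :=
  ⟨u, (O.mem_principalUnitGroup_iff u).2 hu, rfl⟩

lemma mem_BB' {u : Fˣ} {x : F} (hu : (u : F) = 1 + x) (hx : O.valuation x < 1) : φ u ∈ BB φ O := by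
  apply mem_BB
  rw [hu, add_sub_cancel_left]
  exact hx

include hp hζ in
/-- the classes of the elements `x` with `1 + x` a `p`-th power -/
lemma star_BB (hk : ∀ u : Fˣ, φ u = 1 ↔ ∃ c : Fˣ, u = c ^ p) {x z : Fˣ}
    (hx : O.valuation (1 - (ζ : F)) ^ p < O.valuation (x : F)) (hz : (z : F) = 1 + x)
    (hz1 : φ z = 1) : φ x ∈ BB φ O := by
  obtain ⟨t, rfl⟩ := (hk z).1 hz1
  rw [Units.val_pow_eq_pow_val] at hz
  obtain ⟨y, μ, hμ, e⟩ := star hp hζ O hx hz.symm
  obtain ⟨u, hu, hu1⟩ := exists_unit_one_add O hμ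
  have e1 : x = y ^ p * u := by
    ext
    rw [Units.val_mul, e, Units.val_pow_eq_pow_val, hu]
  have e2 : φ (y ^ p) = 1 := (hk _).2 ⟨y, rfl⟩
  rw [e1, map_mul, e2, one_mul]
  exact mem_BB' O hu hμ

include hp hζ in
lemma star_val (hk : ∀ u : Fˣ, φ u = 1 ↔ ∃ c : Fˣ, u = c ^ p) {x z : Fˣ}
    (hx : O.valuation (1 - (ζ : F)) ^ p < O.valuation (x : F)) (hz : (z : F) = 1 + x)
    (hz1 : φ z = 1) : ∃ y : Fˣ, O.valuation (x : F) = O.valuation (y : F) ^ p := by
  obtain ⟨t, rfl⟩ := (hk z).1 hz1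
  rw [Units.val_pow_eq_pow_val] at hz
  obtain ⟨y, μ, hμ, e⟩ := star hp hζ O hx hz.symm
  refine ⟨y, ?_⟩
  rw [e, map_mul, val_one_add O hμ, mul_one, map_pow]

include hp hζ in
/-- the Frobenius map of the residue field is injective -/
lemma frob_inj (hl : O.valuation (1 - (ζ : F)) < 1) {x y : F} (hy : O.valuation y ≤ 1)
    (h : O.valuation (x ^ p - y ^ p) < 1) : O.valuation (x - y) < 1 := by
  by_contra hc
  rw [not_lt] at hc
  have h1 : O.valuation (1 - (ζ : F)) * O.valuation y < O.valuation (x - y) :=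
    (mul_le_of_le_one_right zero_le hy).trans_lt (hl.trans_le hc)
  obtain ⟨μ, hμ, e⟩ := exists_sub_pow hp hζ O h1
  rw [e, map_mul, val_one_add O hμ, mul_one, map_pow] at h
  exact absurd h (not_lt.2 (one_le_pow₀ hc))

include hp hζ in
lemma frob_inj_iter (hl : O.valuation (1 - (ζ : F)) < 1) (n : ℕ) {x y : F}
    (hy : O.valuation y ≤ 1)
    (h : O.valuation (x ^ p ^ n - y ^ p ^ n) < 1) : O.valuation (x - y) < 1 := by
  induction n with
  | zero => simpa using h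
  | succ n ih =>
    apply ih
    rw [pow_succ, pow_mul, pow_mul] at h
    refine frob_inj hp hζ O hl ?_ h
    rw [map_pow]
    exact pow_le_one₀ zero_le hy

include hp hζ in
/-- if `1 - ζ` is a uniformizer then the units have the classes of one-units -/
lemma units_BB [Finite A] (hk : ∀ u : Fˣ, φ u = 1 ↔ ∃ c : Fˣ, u = c ^ p)
    (hl : O.valuation (1 - (ζ : F)) < 1) (hl0 : 1 - (ζ : F) ≠ 0)
    (hunif : ∀ z : Fˣ, O.valuation (z : F) < 1 → O.valuation (z : F) ≤ O.valuation (1 - (ζ : F)))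
    {y : Fˣ} (hy : O.valuation (y : F) = 1) : φ y ∈ BB φ O := by
  have h1 : ∀ n : ℕ, ∃ u : Fˣ, (u : F) = 1 + (1 - (ζ : F)) * ((y : F) ^ p ^ n) ^ p ∧
      O.valuation (u : F) = 1 := by
    intro n
    apply exists_unit_one_add
    rw [map_mul, map_pow, map_pow, hy, one_pow, one_pow, mul_one]
    exact hl
  choose u hu hu1 using h1
  obtain ⟨i, j, hij, e⟩ : ∃ i j, i < j ∧ φ (u i) = φ (u j) := by
    obtain ⟨i, j, hij, e⟩ := Finite.exists_ne_map_eq_of_infinite fun n => φ (u n)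
    rcases lt_or_gt_of_ne hij with h | h
    · exact ⟨i, j, h, e⟩
    · exact ⟨j, i, h, e.symm⟩
  obtain ⟨k, rfl⟩ : ∃ k, j = i + (k + 1) := ⟨j - i - 1, by omega⟩
  have hyn : ∀ n, O.valuation ((y : F) ^ n) = 1 := fun n => by rw [map_pow, hy, one_pow]
  -- congruence
  have h2 : O.valuation ((y : F) ^ p ^ i - (y : F) ^ p ^ (i + (k + 1))) < 1 := by
    by_contra hc
    rw [not_lt] at hc
    have hle : O.valuation ((y : F) ^ p ^ i - (y : F) ^ p ^ (i + (k + 1))) ≤ 1 := by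
      refine (Valuation.map_sub _ _ _).trans ?_
      rw [hyn, hyn, max_self]
    have heq := le_antisymm hle hc
    have h3 : O.valuation (1 - (ζ : F)) * O.valuation ((y : F) ^ p ^ (i + (k + 1))) <
        O.valuation ((y : F) ^ p ^ i - (y : F) ^ p ^ (i + (k + 1))) := by
      rw [hyn, mul_one, heq]
      exact hl
    obtain ⟨μ, hμ, e1⟩ := exists_sub_pow hp hζ O h3
    -- `u i / u j = 1 + x`
    obtain ⟨l, hl'⟩ : ∃ l : Fˣ, (l : F) = 1 - ζ := ⟨Units.mk0 _ hl0, Units.val_mk0 _⟩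
    have hd0 : (y : F) ^ p ^ i - (y : F) ^ p ^ (i + (k + 1)) ≠ 0 := by
      intro e
      rw [e, map_zero] at heq
      exact zero_ne_one heq
    obtain ⟨m, hm, hm1⟩ := exists_unit_one_add O hμ
    obtain ⟨x, hx⟩ : ∃ x : Fˣ, x = l * (Units.mk0 _ hd0) ^ p * m / u (i + (k + 1)) := ⟨_, rfl⟩
    have hxv : O.valuation (x : F) = O.valuation (1 - (ζ : F)) := by
      rw [hx, Units.val_div_eq_div_val, Units.val_mul, Units.val_mul, Units.val_pow_eq_pow_val,
        Units.val_mk0, map_div₀, map_mul, map_mul, map_pow, heq, hm1, hu1, hl', one_pow, mul_one,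
        mul_one, div_one]
    have hz : ((u i / u (i + (k + 1)) : Fˣ) : F) = 1 + x := by
      have h0 : (u (i + (k + 1)) : F) ≠ 0 := Units.ne_zero _
      rw [hx, Units.val_div_eq_div_val, Units.val_div_eq_div_val, Units.val_mul, Units.val_mul,
        Units.val_pow_eq_pow_val, Units.val_mk0, hm, hl', div_eq_iff h0, add_mul, one_mul,
        div_mul_cancel₀ _ h0, mul_assoc, ← e1, hu, hu]
      ring
    obtain ⟨w, hw⟩ := star_val hp hζ O hk (by
      rw [hxv]
      refine pow_lt_self_of_lt_one₀ ?_ hl hp.one_lt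
      rw [← hl']
      exact val_pos O l) hz (by rw [map_div, e, div_self'])
    rw [hxv] at hw
    have hwl : O.valuation (w : F) < 1 := by
      rw [← pow_lt_one_iff_of_nonneg zero_le hp.ne_zero, ← hw]
      exact hl
    have h4 := hunif w hwl
    rw [hw] at h4
    have h5 : O.valuation (w : F) ^ p < O.valuation (w : F) :=
      pow_lt_self_of_lt_one₀ (val_pos O w) hwl hp.one_lt
    exact absurd h4 (not_le.2 h5)
  have h3 : O.valuation ((y : F) - (y : F) ^ p ^ (k + 1)) < 1 := by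
    apply frob_inj_iter hp hζ O hl i (hyn _).le
    rw [← pow_mul, ← pow_add, add_comm (k + 1) i]
    exact h2
  -- `y = (y ^ p ^ k) ^ p (1 + μ)`
  have h4 : O.valuation ((((y / (y ^ p ^ k) ^ p : Fˣ)) : F) - 1) < 1 := by
    have h0 : ((y : F) ^ p ^ k) ^ p ≠ 0 := pow_ne_zero _ (pow_ne_zero _ y.ne_zero)
    rw [Units.val_div_eq_div_val, Units.val_pow_eq_pow_val, Units.val_pow_eq_pow_val,
      div_sub_one h0, map_div₀, map_pow, hyn, one_pow, div_one, ← pow_mul, ← pow_succ]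
    exact h3
  have h5 : φ y = φ (y / (y ^ p ^ k) ^ p) := by
    rw [map_div, (hk ((y ^ p ^ k) ^ p)).2 ⟨_, rfl⟩, div_one]
  rw [h5]
  exact mem_BB O h4

include hp hp2 hζ in
/-- The classes which are not classes of one-units. -/
lemma exists_mem_norm [Finite A] (hφ : Function.Surjective φ)
    (hk : ∀ u : Fˣ, φ u = 1 ↔ ∃ c : Fˣ, u = c ^ p) (hpO : O.valuation (p : F) < 1)
    (harch : ∀ x : F, O.valuation x < 1 → ∀ y : Fˣ, ∃ j : ℕ,
      O.valuation x ^ j ≤ O.valuation (y : F)) {b : A} (hb : b ∉ BB φ O) :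
    ∃ g ∈ BB φ O, g ≠ 1 ∧ g ∈ Vv φ b := by
  have hlam := val_lam hp hp2 hζ O hpO
  have hl0 : (1 : F) - ζ ≠ 0 := by
    intro e
    have h1 : ζ = 1 := by
      ext
      rw [Units.val_one]
      linear_combination (-1) * e
    rw [h1] at hζ
    have := hζ.unique IsPrimitiveRoot.one
    exact hp.one_lt.ne' this
  obtain ⟨l, hl⟩ : ∃ l : Fˣ, (l : F) = 1 - ζ := ⟨Units.mk0 _ hl0, Units.val_mk0 _⟩
  have hlp := val_pos O l
  -- it suffices to find `y`
  have key : (∃ y : Fˣ, φ y = b ∧ O.valuation (1 - (ζ : F)) ^ p < O.valuation (y : F) ∧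
      O.valuation (y : F) < 1) → ∃ g ∈ BB φ O, g ≠ 1 ∧ g ∈ Vv φ b := by
    rintro ⟨y, rfl, h1, h2⟩
    obtain ⟨u, hu, -⟩ := exists_unit_one_add O h2
    exact ⟨φ u, mem_BB' O hu h2, fun e => hb (star_BB hp hζ O hk h1 hu e),
      Or.inr (Or.inr ⟨y, u, rfl, hu, rfl⟩)⟩
  obtain ⟨y₀, hy₀⟩ := hφ b
  obtain ⟨j, hj⟩ := harch _ hlam y₀⁻¹
  -- an integral element of the class
  obtain ⟨y₁, hy₁⟩ : ∃ y₁ : Fˣ, y₁ = y₀ * (l ^ j) ^ p := ⟨_, rfl⟩
  have hy₁b : φ y₁ = b := by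
    rw [hy₁, map_mul, (hk ((l ^ j) ^ p)).2 ⟨_, rfl⟩, mul_one, hy₀]
  have hy₁v : O.valuation (y₁ : F) ≤ 1 := by
    have h0 := val_pos O y₀
    rw [Units.val_inv_eq_inv_val, map_inv₀, ← hl] at hj
    have h1 : (O.valuation (l : F) ^ j) ^ p ≤ O.valuation (l : F) ^ j := by
      refine pow_le_of_le_one zero_le (pow_le_one₀ zero_le ?_) hp.ne_zero
      rw [hl]; exact hlam.le
    rw [hy₁, Units.val_mul, map_mul, Units.val_pow_eq_pow_val, Units.val_pow_eq_pow_val, map_pow,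
      map_pow]
    calc O.valuation (y₀ : F) * (O.valuation (l : F) ^ j) ^ p
        ≤ O.valuation (y₀ : F) * (O.valuation (y₀ : F))⁻¹ := mul_le_mul_right (h1.trans hj) _
      _ = 1 := mul_inv_cancel₀ h0.ne'
  -- scale
  have hex : ∃ n : ℕ, (O.valuation (l : F) ^ n) ^ p < O.valuation (y₁ : F) := by
    obtain ⟨i, hi⟩ := harch _ hlam y₁
    rw [← hl] at hi
    refine ⟨i + 1, lt_of_lt_of_le ?_ hi⟩
    have h1 : O.valuation (l : F) ^ (i + 1) < O.valuation (l : F) ^ i := by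
      rw [pow_succ]
      refine mul_lt_of_lt_one_right (pow_pos hlp _) ?_
      rw [hl]; exact hlam
    refine lt_of_le_of_lt ?_ h1
    refine pow_le_of_le_one zero_le (pow_le_one₀ zero_le ?_) hp.ne_zero
    rw [hl]; exact hlam.le
  classical
  obtain ⟨n, hn, hmin⟩ : ∃ n : ℕ, (O.valuation (l : F) ^ n) ^ p < O.valuation (y₁ : F) ∧
      ∀ m < n, ¬ (O.valuation (l : F) ^ m) ^ p < O.valuation (y₁ : F) :=
    ⟨Nat.find hex, Nat.find_spec hex, fun m hm => Nat.find_min hex hm⟩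
  have hn0 : n ≠ 0 := by
    rintro rfl
    rw [pow_zero, one_pow] at hn
    exact absurd hn (not_lt.2 hy₁v)
  obtain ⟨m, rfl⟩ := Nat.exists_eq_succ_of_ne_zero hn0
  have hm := hmin m (Nat.lt_succ_self m)
  rw [not_lt] at hm
  obtain ⟨y, hy⟩ : ∃ y : Fˣ, y = y₁ / (l ^ m) ^ p := ⟨_, rfl⟩
  have hyb : φ y = b := by
    rw [hy, map_div, (hk ((l ^ m) ^ p)).2 ⟨_, rfl⟩, div_one, hy₁b]
  have hyv : O.valuation (y : F) = O.valuation (y₁ : F) / (O.valuation (l : F) ^ m) ^ p := by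
    rw [hy, Units.val_div_eq_div_val, Units.val_pow_eq_pow_val, Units.val_pow_eq_pow_val,
      map_div₀, map_pow, map_pow]
  have hmp : 0 < (O.valuation (l : F) ^ m) ^ p := pow_pos (pow_pos hlp _) _
  have hy1 : O.valuation (y : F) ≤ 1 := by
    rw [hyv, div_le_one₀ hmp]
    exact hm
  have hy2 : O.valuation (1 - (ζ : F)) ^ p < O.valuation (y : F) := by
    rw [hyv, lt_div_iff₀ hmp, ← hl, ← mul_pow, ← pow_succ']
    exact hn
  rcases hy1.lt_or_eq with h1 | h1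
  · exact key ⟨y, hyb, hy2, h1⟩
  -- a unit
  by_cases hunif : ∀ z : Fˣ, O.valuation (z : F) < 1 →
      O.valuation (z : F) ≤ O.valuation (1 - (ζ : F))
  · exact absurd (hyb ▸ units_BB hp hζ O hk hlam hl0 hunif h1) hb
  · push Not at hunif
    obtain ⟨z, hz1, hz2⟩ := hunif
    apply key
    refine ⟨y * z ^ p, ?_, ?_, ?_⟩
    · rw [map_mul, (hk (z ^ p)).2 ⟨_, rfl⟩, mul_one, hyb]
    · rw [Units.val_mul, Units.val_pow_eq_pow_val, map_mul, h1, one_mul, map_pow]
      exact pow_lt_pow_left₀ hz2 zero_le hp.ne_zero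
    · rw [Units.val_mul, Units.val_pow_eq_pow_val, map_mul, h1, one_mul, map_pow]
      exact pow_lt_one₀ zero_le hz1 hp.ne_zero

end

end Pool.Agent.Helper58.EB
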