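import Mathlib
import Pool.Agent.Helper58.EB.Weak

set_option autoImplicit false

/-! Open valuation rings and balls of radius two. -/

namespace Pool.Agent.Helper58.EB

open Pool.Agent.Y920.EP Pool.Agent.Y705.EP

section

variable {F : Type} [Field F] {A : Type} [CommGroup A] {φ : Fˣ →* A}

/-- the balls of radius two have at most `M` elements -/
def Ball (φ : Fˣ →* A) (M : ℕ) : Prop :=
  ∀ a : A, a ≠ 1 → ∃ E : Finset A, E.card ≤ M ∧ 1 ∈ E ∧
    ∀ b c d : A, c ∈ Vv φ a → d ∈ Vv φ a → c ≠ d → c / d ∈ Vv φ b → b ∈ E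

lemma ball_HL {M : ℕ} (hneg : φ (-1) = 1) (hB : Ball φ M) : HL φ M := by
  classical
  have key : ∀ x y z : Fˣ, (z : F) = x + y → φ x ≠ φ y → Le φ M x z := by
    intro x y z hz hxy
    have ha : φ (x / y) ≠ 1 := by
      rw [map_div]
      exact fun e => hxy (div_eq_one.1 e)
    obtain ⟨E, hE, hE1, hE2⟩ := hB _ ha
    refine ⟨E.image fun e => φ z * e, Finset.card_image_le.trans hE, ?_⟩
    intro w hw hwx
    obtain ⟨x', hx', hxe⟩ := hwx
    have hwz : φ w ≠ φ z := by
      intro e
      apply hw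
      rw [Finset.mem_image]
      exact ⟨1, hE1, by rw [mul_one, e]⟩
    have h0 : (z : F) + w ≠ 0 := add_ne hneg hwz.symm
    obtain ⟨v, hv⟩ : ∃ v : Fˣ, (v : F) = z + w := ⟨Units.mk0 _ h0, Units.val_mk0 _⟩
    refine ⟨v, hv, ?_⟩
    by_contra hc
    have hy0 : (y : F) ≠ 0 := y.ne_zero
    have hz0 : (z : F) ≠ 0 := z.ne_zero
    have h1 : φ (v / z) ∈ Vv φ (φ (w / z)) := by
      refine Or.inr (Or.inr ⟨_, _, rfl, ?_, rfl⟩)
      rw [Units.val_div_eq_div_val, Units.val_div_eq_div_val, hv]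
      field_simp
    have h2 : φ (v / y) ∈ Vv φ (φ (x / y)) := by
      have h3 : φ (x / y) = φ (x' / y) := by rw [map_div, map_div, hxe]
      rw [h3]
      refine Or.inr (Or.inr ⟨_, _, rfl, ?_, rfl⟩)
      rw [Units.val_div_eq_div_val, Units.val_div_eq_div_val, hv, hx', hz]
      field_simp
      ring
    have h3 : φ (z / y) ∈ Vv φ (φ (x / y)) := by
      refine Or.inr (Or.inr ⟨_, _, rfl, ?_, rfl⟩)
      rw [Units.val_div_eq_div_val, Units.val_div_eq_div_val, hz]
      field_simp
      ring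
    have h4 : φ (v / z) = φ (v / y) / φ (z / y) := by
      rw [← map_div, div_div_div_cancel_right]
    apply hw
    rw [Finset.mem_image]
    refine ⟨φ (w / z), hE2 _ _ _ h2 h3 ?_ (h4 ▸ h1), by rw [← map_mul, mul_div_cancel]⟩
    intro e
    rw [e, div_self', map_div] at h4
    exact hc (div_eq_one.1 h4)
  intro x y z hz hxy
  exact ⟨key x y z hz hxy, key y x z (by rw [hz, add_comm]) (Ne.symm hxy)⟩

variable {p : ℕ} (hp : p.Prime) (hp2 : p ≠ 2) {ζ : Fˣ} (hζ : IsPrimitiveRoot ζ p)
  (O : ValuationSubring F)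

lemma val_natCast_le (O : ValuationSubring F) (n : ℕ) : O.valuation (n : F) ≤ 1 :=
  (O.valuation_le_one_iff _).2 (natCast_mem O n)

include hp hp2 hζ in
theorem caseB [Finite A] {M : ℕ} (hφ : Function.Surjective φ) (hneg : φ (-1) = 1)
    (hB : Ball φ M)
    (hk : ∀ u : Fˣ, φ u = 1 ↔ ∃ c : Fˣ, u = c ^ p) {r s : Fˣ} (hP : Pair φ r s)
    {d : Fˣ} (hd1 : O.valuation (d : F) < 1)
    (hd : ∀ v : F, O.valuation v ≤ O.valuation (d : F) → ∃ u : Fˣ, (u : F) = 1 + v ∧ φ u = 1)
    (harch : ∀ x : F, O.valuation x < 1 → ∀ y : Fˣ, ∃ j : ℕ,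
      O.valuation x ^ j ≤ O.valuation (y : F)) :
    (O.valuation (p : F) = 1 ∧ Cmp φ O) ∨ Nat.card A ≤ M := by
  classical
  rcases (val_natCast_le O p).lt_or_eq with hpO | hpO
  swap
  · exact Or.inl ⟨hpO, fun x hx => newton O hpO hk hd hx (harch x hx d)⟩
  right
  have hC : ¬ Cmp φ O := fun hC => not_res hp hp2 hζ O hneg hP hk hC hpO
  unfold Cmp at hC
  push Not at hC
  obtain ⟨x₀, hx₀, hx₀1⟩ := hC
  -- representatives of the classes of one-units
  have hrep : ∀ b : BB φ O, ∃ u : Fˣ, O.valuation ((u : F) - 1) < 1 ∧ φ u = b := by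
    rintro ⟨b, u, hu, rfl⟩
    exact ⟨u, (O.mem_principalUnitGroup_iff u).1 hu, rfl⟩
  choose rep hrep1 hrep2 using hrep
  obtain ⟨ε, hε1, hε2⟩ : ∃ ε : Fˣ, O.valuation (ε : F) < 1 ∧
      ∀ b, O.valuation ((rep b : F) - 1) ≤ O.valuation (ε : F) := by
    obtain ⟨b₀, hb₀⟩ := Finite.exists_max fun b =>
      max (O.valuation ((rep b : F) - 1)) (O.valuation (d : F))
    by_cases h0 : O.valuation ((rep b₀ : F) - 1) ≤ O.valuation (d : F)
    · refine ⟨d, hd1, fun b => ?_⟩
      have := (le_max_left _ _).trans (hb₀ b)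
      rwa [max_eq_right h0] at this
    · rw [not_le] at h0
      have hne : (rep b₀ : F) - 1 ≠ 0 := by
        intro e
        rw [e, map_zero] at h0
        exact absurd h0 (not_lt.2 zero_le)
      refine ⟨Units.mk0 _ hne, by rw [Units.val_mk0]; exact hrep1 b₀, fun b => ?_⟩
      have := (le_max_left _ _).trans (hb₀ b)
      rwa [max_eq_left h0.le] at this
  -- an element `1 + x` not in the kernel which is close to one
  obtain ⟨x, hx, hx1, hxε⟩ : ∃ x : F, O.valuation x < 1 ∧
      (∀ u : Fˣ, (u : F) = 1 + x → φ u ≠ 1) ∧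
      ∀ v : F, O.valuation v ≤ O.valuation x * O.valuation (ε : F) →
        ∃ u : Fˣ, (u : F) = 1 + v ∧ φ u = 1 := by
    have hex : ∃ n : ℕ, ∀ v : F, O.valuation v ≤ O.valuation x₀ * O.valuation (ε : F) ^ n →
        ∃ u : Fˣ, (u : F) = 1 + v ∧ φ u = 1 := by
      obtain ⟨j, hj⟩ := harch _ hε1 d
      refine ⟨j, fun v hv => hd v (hv.trans ?_)⟩
      exact (mul_le_of_le_one_left zero_le hx₀.le).trans hj
    obtain ⟨n, hn, hmin⟩ : ∃ n : ℕ, (∀ v : F, O.valuation v ≤
        O.valuation x₀ * O.valuation (ε : F) ^ n → ∃ u : Fˣ, (u : F) = 1 + v ∧ φ u = 1) ∧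
        ∀ m < n, ¬ ∀ v : F, O.valuation v ≤ O.valuation x₀ * O.valuation (ε : F) ^ m →
          ∃ u : Fˣ, (u : F) = 1 + v ∧ φ u = 1 :=
      ⟨Nat.find hex, Nat.find_spec hex, fun m hm => Nat.find_min hex hm⟩
    have hn0 : n ≠ 0 := by
      rintro rfl
      obtain ⟨u, hu, hu1⟩ := hn x₀ (by rw [pow_zero, mul_one])
      exact hx₀1 u hu hu1
    obtain ⟨m, rfl⟩ := Nat.exists_eq_succ_of_ne_zero hn0
    have hm := hmin m (Nat.lt_succ_self m)
    push Not at hm
    obtain ⟨x, hx, hx1⟩ := hm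
    refine ⟨x, ?_, hx1, fun v hv => hn v (hv.trans ?_)⟩
    · refine hx.trans_lt ?_
      exact mul_lt_one_of_nonneg_of_lt_one_left zero_le hx₀ (pow_le_one₀ zero_le hε1.le)
    · rw [Nat.succ_eq_add_one, pow_succ, ← mul_assoc]
      exact mul_le_mul_left hx _
  obtain ⟨g, hg, hg1⟩ := exists_unit_one_add O hx
  have hx0 : x ≠ 0 := by
    rintro rfl
    exact hx1 1 (by rw [Units.val_one, add_zero]) (map_one _)
  obtain ⟨x', hx'⟩ : ∃ x' : Fˣ, (x' : F) = x := ⟨Units.mk0 _ hx0, Units.val_mk0 _⟩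
  have ha := hx1 g hg
  -- the classes of one-units are in the norm group
  have h1 : ∀ b : BB φ O, φ x' * b ∈ Vv φ (φ g) := by
    intro b
    have hg0 : (g : F) ≠ 0 := g.ne_zero
    obtain ⟨t, ht, ht1⟩ := hxε (x * ((rep b : F) - 1) / g) (by
      rw [map_div₀, map_mul, hg1, div_one]
      exact mul_le_mul_right (hε2 b) _)
    have h2 : φ (-(x' * rep b)) ∈ Vv φ (φ (-(g * t))) := by
      refine Or.inr (Or.inr ⟨_, _, rfl, ?_, rfl⟩)
      rw [Units.val_neg, Units.val_neg, Units.val_mul, Units.val_mul, ht, hx', mul_add,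
        mul_div_cancel₀ _ hg0, hg]
      ring
    rwa [phi_neg hneg, phi_neg hneg, map_mul, map_mul, ht1, mul_one, hrep2] at h2
  have h2 : ∀ b ∈ BB φ O, ∃ c d : A, c ∈ Vv φ (φ g) ∧ d ∈ Vv φ (φ g) ∧ b = c / d := by
    intro b hb
    refine ⟨_, _, h1 ⟨b, hb⟩, h1 1, ?_⟩
    rw [mul_div_mul_left_eq_div, OneMemClass.coe_one, div_one]
  obtain ⟨E, hE, hE1, hE2⟩ := hB _ ha
  have hall : ∀ b : A, b ∈ E := by
    intro b
    by_cases hb1 : b = 1
    · rw [hb1]; exact hE1
    by_cases hb : b ∈ BB φ O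
    · obtain ⟨c, d, hc, hd', e⟩ := h2 b hb
      refine hE2 b c d hc hd' (fun e2 => hb1 ?_) (Or.inr (Or.inl e.symm))
      rw [e, e2, div_self']
    · obtain ⟨g', hg1', hg2', hg3'⟩ := exists_mem_norm hp hp2 hζ O hφ hk hpO harch hb
      obtain ⟨c, d, hc, hd', e⟩ := h2 g' hg1'
      refine hE2 b c d hc hd' (fun e2 => hg2' ?_) (e ▸ hg3')
      rw [e, e2, div_self']
  have h6 : Nat.card A = E.card := by
    have _ := Fintype.ofFinite A
    rw [Nat.card_eq_fintype_card, ← Finset.card_univ]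
    congr 1
    ext b
    simp [hall b]
  rw [h6]
  exact hE

include hp hp2 hζ in
theorem weak [Finite A] {M : ℕ} (hφ : Function.Surjective φ) (hneg : φ (-1) = 1)
    (hB : Ball φ M)
    (hk : ∀ u : Fˣ, φ u = 1 ↔ ∃ c : Fˣ, u = c ^ p) {r s : Fˣ} (hP : Pair φ r s)
    (V : ValuationSubring F) {c : Fˣ} (hcV : (c : F) ∈ V) (hcV' : ((c⁻¹ : Fˣ) : F) ∉ V)
    (hc : ∀ v ∈ V, ∃ z : Fˣ, (z : F) = 1 + c * v ∧ φ z = 1) :
    (∃ O : ValuationSubring F, O ≠ ⊤ ∧ O.valuation (p : F) = 1 ∧ Cmp φ O) ∨
      Nat.card A ≤ M := by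
  classical
  have hcv : V.valuation (c : F) < 1 := by
    rw [← V.valuation_le_one_iff, Units.val_inv_eq_inv_val, map_inv₀, not_le] at hcV'
    exact (one_lt_inv₀ (val_pos V c)).1 hcV'
  by_cases hV : ∀ x : F, ∃ j : ℕ, (c : F) ^ j * x ∈ V
  · -- the rank one coarsening
    let R : Subring F :=
      { carrier := {x | ∀ j : ℕ, V.valuation (c : F) * V.valuation x ^ j ≤ 1}
        mul_mem' := by
          intro a b ha hb j
          rw [map_mul]
          rcases le_total (V.valuation a) (V.valuation b) with h | h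
          · refine le_trans (mul_le_mul_right ?_ _) (hb (j + j))
            rw [mul_pow, pow_add]
            exact mul_le_mul_left (pow_le_pow_left₀ zero_le h j) _
          · refine le_trans (mul_le_mul_right ?_ _) (ha (j + j))
            rw [mul_pow, pow_add]
            exact mul_le_mul_right (pow_le_pow_left₀ zero_le h j) _
        one_mem' := by
          intro j
          rw [map_one, one_pow, mul_one]
          exact hcv.le
        add_mem' := by
          intro a b ha hb j
          have h := Valuation.map_add V.valuation a b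
          rcases le_max_iff.1 h with h | h
          · exact (mul_le_mul_right (pow_le_pow_left₀ zero_le h j) _).trans (ha j)
          · exact (mul_le_mul_right (pow_le_pow_left₀ zero_le h j) _).trans (hb j)
        zero_mem' := by
          intro j
          rw [map_zero]
          refine mul_le_one₀ hcv.le zero_le ?_
          exact pow_le_one₀ zero_le zero_le
        neg_mem' := by
          intro a ha j
          rw [Valuation.map_neg]
          exact ha j }
    have hVR : V.toSubring ≤ R := by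
      intro x hx j
      exact mul_le_one₀ hcv.le zero_le
        (pow_le_one₀ zero_le ((V.valuation_le_one_iff x).2 hx))
    obtain ⟨O, hOR⟩ : ∃ O : ValuationSubring F, ∀ x, x ∈ O ↔ x ∈ R :=
      ⟨V.ofLE R hVR, fun x => Iff.rfl⟩
    have hVO : ∀ x ∈ V, x ∈ O := fun x hx => (hOR x).2 (hVR hx)
    have hO1 : ∀ x : F, x ∈ O → (c : F) * x ∈ V := by
      intro x hx
      rw [← V.valuation_le_one_iff, map_mul]
      have := (hOR x).1 hx 1
      rwa [pow_one] at this
    have hcO : ((c⁻¹ : Fˣ) : F) ∉ O := by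
      intro h
      have h1 := (hOR _).1 h 2
      rw [Units.val_inv_eq_inv_val, map_inv₀, inv_pow, pow_two, mul_inv,
        mul_inv_cancel_left₀ (val_ne V c)] at h1
      exact absurd h1 (not_le.2 ((one_lt_inv₀ (val_pos V c)).2 hcv))
    have hcOv : O.valuation (c : F) < 1 := by
      rw [← O.valuation_le_one_iff, Units.val_inv_eq_inv_val, map_inv₀, not_le] at hcO
      exact (one_lt_inv₀ (val_pos O c)).1 hcO
    have hlt : ∀ x : F, O.valuation x < 1 → ∃ j : ℕ, V.valuation x ^ j ≤ V.valuation (c : F) := by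
      intro x hx
      by_cases hx0 : x = 0
      · exact ⟨1, by rw [hx0, map_zero, pow_one]; exact zero_le⟩
      have h1 : x⁻¹ ∉ O := by
        intro h
        rw [← O.valuation_le_one_iff, map_inv₀] at h
        have h0 : 0 < O.valuation x := zero_lt_iff.2 ((Valuation.ne_zero_iff _).2 hx0)
        exact absurd h (not_le.2 ((one_lt_inv₀ h0).2 hx))
      rw [hOR] at h1
      have h2 : ¬ ∀ j : ℕ, V.valuation (c : F) * V.valuation x⁻¹ ^ j ≤ 1 := h1
      push Not at h2
      obtain ⟨j, hj⟩ := h2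
      refine ⟨j, ?_⟩
      have h0 : 0 < V.valuation x ^ j := pow_pos (zero_lt_iff.2 ((Valuation.ne_zero_iff _).2 hx0)) j
      rw [map_inv₀, inv_pow, ← div_eq_mul_inv, one_lt_div₀ h0] at hj
      exact hj.le
    have hle : ∀ x y : F, V.valuation x ≤ V.valuation y → O.valuation x ≤ O.valuation y := by
      intro x y hxy
      by_cases hy0 : y = 0
      · rw [hy0, map_zero, le_zero_iff, map_eq_zero] at hxy
        rw [hxy, hy0]
      have h0 : 0 < V.valuation y := zero_lt_iff.2 ((Valuation.ne_zero_iff _).2 hy0)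
      have h0' : 0 < O.valuation y := zero_lt_iff.2 ((Valuation.ne_zero_iff _).2 hy0)
      rw [← div_le_one₀ h0'] 
      rw [← div_le_one₀ h0] at hxy
      rw [← map_div₀] at hxy ⊢
      rw [O.valuation_le_one_iff]
      exact hVO _ ((V.valuation_le_one_iff _).1 hxy)
    have harch : ∀ x : F, O.valuation x < 1 → ∀ y : Fˣ, ∃ j : ℕ,
        O.valuation x ^ j ≤ O.valuation (y : F) := by
      intro x hx y
      obtain ⟨i, hi⟩ := hlt x hx
      obtain ⟨k, hk⟩ := hV ((y⁻¹ : Fˣ) : F)
      refine ⟨i * k, ?_⟩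
      rw [← map_pow]
      apply hle
      rw [map_pow, pow_mul]
      refine (pow_le_pow_left₀ zero_le hi k).trans ?_
      rw [← V.valuation_le_one_iff, map_mul, map_pow, Units.val_inv_eq_inv_val, map_inv₀,
        ← div_eq_mul_inv, div_le_one₀ (val_pos V y)] at hk
      exact hk
    have hOtop : O ≠ ⊤ := by
      rintro rfl
      exact hcO (ValuationSubring.mem_top _)
    rcases caseB hp hp2 hζ O hφ hneg hB hk hP (d := c * c) (by
        rw [Units.val_mul, map_mul]
        exact mul_lt_one_of_nonneg_of_lt_one_left zero_le hcOv hcOv.le) (by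
        intro v hv
        have hc0 : (c : F) ≠ 0 := c.ne_zero
        have h1 : v / (c * c) ∈ O := by
          rw [← O.valuation_le_one_iff, map_div₀, div_le_one₀]
          · rw [Units.val_mul] at hv
            exact hv
          · rw [map_mul]
            exact mul_pos (val_pos O c) (val_pos O c)
        obtain ⟨z, hz, hz1⟩ := hc _ (hO1 _ h1)
        refine ⟨z, ?_, hz1⟩
        rw [hz]
        field_simp) harch with h | h
    · exact Or.inl ⟨O, hOtop, h.1, h.2⟩
    · exact Or.inr h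
  · left
    let R : Subring F :=
      { carrier := {x | ∃ j : ℕ, (c : F) ^ j * x ∈ V}
        mul_mem' := by
          rintro a b ⟨i, hi⟩ ⟨j, hj⟩
          refine ⟨i + j, ?_⟩
          have := V.mul_mem _ _ hi hj
          have e : (c : F) ^ (i + j) * (a * b) = (c ^ i * a) * (c ^ j * b) := by ring
          rwa [e]
        one_mem' := ⟨0, by rw [pow_zero, one_mul]; exact V.one_mem⟩
        add_mem' := by
          rintro a b ⟨i, hi⟩ ⟨j, hj⟩
          refine ⟨i + j, ?_⟩
          have h1 := V.mul_mem _ _ (V.toSubring.pow_mem hcV j) hi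
          have h2 := V.mul_mem _ _ (V.toSubring.pow_mem hcV i) hj
          have e : (c : F) ^ (i + j) * (a + b) = c ^ j * (c ^ i * a) + c ^ i * (c ^ j * b) := by
            ring
          rw [e]
          exact V.add_mem _ _ h1 h2
        zero_mem' := ⟨0, by rw [mul_zero]; exact V.zero_mem⟩
        neg_mem' := by
          rintro a ⟨i, hi⟩
          exact ⟨i, by rw [mul_neg]; exact V.neg_mem _ hi⟩ }
    have hVR : V.toSubring ≤ R := by
      intro x hx
      exact ⟨0, by rw [pow_zero, one_mul]; exact hx⟩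
    obtain ⟨O, hOR⟩ : ∃ O : ValuationSubring F, ∀ x, x ∈ O ↔ x ∈ R :=
      ⟨V.ofLE R hVR, fun x => Iff.rfl⟩
    have hOtop : O ≠ ⊤ := by
      rintro rfl
      apply hV
      intro x
      exact (hOR x).1 (ValuationSubring.mem_top x)
    have hC : Cmp φ O := by
      intro x hx
      by_cases hx0 : x = 0
      · exact ⟨1, by rw [hx0, add_zero, Units.val_one], map_one _⟩
      have h1 : x⁻¹ ∉ O := by
        intro h
        rw [← O.valuation_le_one_iff, map_inv₀] at h
        have h0 : 0 < O.valuation x := zero_lt_iff.2 ((Valuation.ne_zero_iff _).2 hx0)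
        exact absurd h (not_le.2 ((one_lt_inv₀ h0).2 hx))
      have h2 : x / c ∈ V := by
        have hc0 : (c : F) ≠ 0 := c.ne_zero
        rcases V.mem_or_inv_mem (x / c) with h | h
        · exact h
        · exfalso
          apply h1
          rw [hOR]
          refine ⟨1, ?_⟩
          rw [pow_one]
          rw [inv_div] at h
          rwa [← div_eq_mul_inv]
      obtain ⟨z, hz, hz1⟩ := hc _ h2
      refine ⟨z, ?_, hz1⟩
      rw [hz, mul_div_cancel₀ _ c.ne_zero]
    refine ⟨O, hOtop, ?_, hC⟩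
    rcases (val_natCast_le O p).lt_or_eq with h | h
    · exact absurd h (not_res hp hp2 hζ O hneg hP hk hC)
    · exact h

end

end Pool.Agent.Helper58.EB
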