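import Mathlib
import Pool.Agent.Helper58.EB.CaseB
import Pool.Agent.Helper58.EB.Thick
import Pool.Graph.R_pool_sql_team_seeded_b677cdb8.E8helper26.ETC.Base
import Pool.Graph.R_seed8.Y920.EP.FieldP
import Pool.Graph.R_seed8.Y98.EP.PCD
import Pool.Graph.R_seed8.Y447.EP.WB
import Pool.Graph.R_seed8.Y232.EP.Coarse

set_option autoImplicit false

/-! Either there is a compatible valuation ring or there are few classes. -/

namespace Pool.Agent.Helper58.EB

open Pool.Agent.Y920.EP Pool.Agent.Y705.EP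

section

variable {F : Type} [Field F] {A : Type} [CommGroup A] {φ : Fˣ →* A}

variable {p : ℕ}

/-- finite fields -/
lemma dich_fin [Finite F] (hp : p.Prime) (hφ : Function.Surjective φ)
    (hk : ∀ u : Fˣ, φ u = 1 ↔ ∃ c : Fˣ, u = c ^ p) : Nat.card A ≤ p := by
  have hA : IsCyclic A := isCyclic_of_surjective φ hφ
  have hexp : ∀ a : A, a ^ p = 1 := by
    intro a
    obtain ⟨u, rfl⟩ := hφ a
    rw [← map_pow, hk]
    exact ⟨u, rfl⟩
  have hfin : Finite A := Finite.of_surjective φ hφ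
  have h1 : Nat.card A ∣ p := by
    rw [← IsCyclic.exponent_eq_card]
    exact Monoid.exponent_dvd_of_forall_pow_eq_one hexp
  exact Nat.le_of_dvd hp.pos h1

/-- no nonrigid class -/
lemma rigid_ring (hp : p.Prime) (hp2 : p ≠ 2) {ζ : Fˣ} (hζ : IsPrimitiveRoot ζ p)
    (hφ : Function.Surjective φ) (hneg : φ (-1) = 1)
    (hk : ∀ u : Fˣ, φ u = 1 ↔ ∃ c : Fˣ, u = c ^ p) (hP : ∀ r s : Fˣ, ¬ Pair φ r s) :
    (∃ O : ValuationSubring F, O ≠ ⊤ ∧ O.valuation (p : F) = 1 ∧ Cmp φ O) ∨ Nat.card A = 1 := by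
  have hodd : Odd p := hp.odd_of_ne_two hp2
  have hpF : (p : F) ≠ 0 := by
    have : NeZero p := ⟨hp.ne_zero⟩
    have hζ' : IsPrimitiveRoot (ζ : F) p := by rwa [IsPrimitiveRoot.coe_units_iff]
    exact hζ'.neZero'.ne
  have hexp : ∀ a : A, a ^ p = 1 := by
    intro a
    obtain ⟨u, rfl⟩ := hφ a
    rw [← map_pow, hk]
    exact ⟨u, rfl⟩
  have hNR : NR φ ⊆ (⊥ : Subgroup A) := by
    rintro a ⟨ha, r, s, hr, hrs, hs, hsa⟩
    exact absurd ⟨hrs, hr ▸ ha, hs, hr ▸ hsa⟩ (hP r s)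
  have hRP : RP φ.ker ((⊥ : Subgroup A).comap φ) := rp_of hneg ⊥ hNR
  have hsq : ∀ x : Fˣ, x * x ∈ (⊥ : Subgroup A).comap φ → x ∈ (⊥ : Subgroup A).comap φ := by
    intro x hx
    rw [Subgroup.mem_comap] at hx ⊢
    obtain ⟨m, hm⟩ := hodd
    have : φ x = φ (x * x) ^ (m + 1) := by
      rw [map_mul, ← pow_two, ← pow_mul, show 2 * (m + 1) = p + 1 by omega, pow_succ, hexp,
        one_mul]
    rw [this]
    exact pow_mem hx _
  have hPCD := Pool.Agent.Y98.EP.t_PCD F φ.ker _ hRP hsq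
  obtain ⟨O, hO⟩ := Pool.Agent.Y447.EP.t_WB' F φ.ker _ hRP hPCD
  obtain ⟨O', -, hpO, hO'⟩ := Pool.Agent.Y232.EP.t_COARSE' F p hp hpF φ.ker _
    (fun x => by rw [MonoidHom.mem_ker, hk]) hRP.le O hO
  have hCmp : Cmp φ O' := by
    intro x hx
    have hxO : x ∈ O' := (O'.valuation_le_one_iff _).1 hx.le
    by_cases hx0 : x = 0
    · exact ⟨1, by rw [hx0, add_zero, Units.val_one], map_one _⟩
    have h1 : x⁻¹ ∉ O' := by
      intro h
      rw [← O'.valuation_le_one_iff, map_inv₀] at h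
      have h0 : 0 < O'.valuation x := zero_lt_iff.2 ((Valuation.ne_zero_iff _).2 hx0)
      exact absurd h (not_le.2 ((one_lt_inv₀ h0).2 hx))
    obtain ⟨t, ht, e⟩ := hO'.one x hxO h1
    exact ⟨t, e, ht⟩
  have hpv : O'.valuation (p : F) = 1 := by
    refine le_antisymm (val_natCast_le O' p) ?_
    have h1 := (O'.valuation_le_one_iff _).2 hpO
    rw [map_inv₀] at h1
    have h0 : 0 < O'.valuation (p : F) := zero_lt_iff.2 ((Valuation.ne_zero_iff _).2 hpF)
    exact (inv_le_one₀ h0).1 h1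
  by_cases htop : O' = ⊤
  · right
    have h1 : ∀ a : A, a = 1 := by
      intro a
      obtain ⟨u, rfl⟩ := hφ a
      have := hO'.units u (by rw [htop]; trivial) (by rw [htop]; trivial)
      exact this
    have : Subsingleton A := ⟨fun a b => by rw [h1 a, h1 b]⟩
    exact Nat.card_of_subsingleton 1
  · exact Or.inl ⟨O', htop, hpv, hCmp⟩

/-- Either there is a compatible valuation ring or there are few classes. -/
theorem dich [Finite A] (hp : p.Prime) (hp2 : p ≠ 2) {ζ : Fˣ} (hζ : IsPrimitiveRoot ζ p)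
    {M : ℕ} (hφ : Function.Surjective φ) (hneg : φ (-1) = 1) (hB : Ball φ M)
    (hk : ∀ u : Fˣ, φ u = 1 ↔ ∃ c : Fˣ, u = c ^ p) :
    (∃ O : ValuationSubring F, O ≠ ⊤ ∧ O.valuation (p : F) = 1 ∧ Cmp φ O) ∨
      Nat.card A ≤ max p (38 * M + 1) := by
  classical
  rcases finite_or_infinite F with hF | hF
  · right
    exact (dich_fin hp hφ hk).trans (le_max_left _ _)
  by_cases hP : ∃ r s : Fˣ, Pair φ r s
  swap
  · push Not at hP
    rcases rigid_ring hp hp2 hζ hφ hneg hk hP with h | h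
    · exact Or.inl h
    · right; rw [h]; exact hp.one_lt.le.trans (le_max_left _ _)
  obtain ⟨r, s, hP⟩ := hP
  have hL := ball_HL hneg hB
  by_cases hall : ∀ x : Fˣ, Le φ (19 * M) 1 x
  · right
    have _ := Fintype.ofFinite A
    rw [Nat.card_eq_fintype_card, ← Finset.card_univ]
    refine le_trans (Pool.Agent.E8helper26.ETC.su2 (φ := φ) (k := 19 * M) Finset.univ ?_)
      (le_trans ?_ (le_max_right _ _))
    · intro g _
      obtain ⟨w, hw, hw1⟩ := thick φ hφ hneg g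
      exact ⟨w, hw, hall w, hw1⟩
    · omega
  · push Not at hall
    obtain ⟨x, hx⟩ := hall
    obtain ⟨V, c, hcV, hcV', hc⟩ := exists_open hneg hL hP hx
    rcases weak hp hp2 hζ hφ hneg hB hk hP V hcV hcV' hc with h | h
    · exact Or.inl h
    · right
      exact le_trans h (le_trans (by omega) (le_max_right _ _))

end

end Pool.Agent.Helper58.EB
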