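import Mathlib
import Pool.Agent.Helper58.EB.Dich

set_option autoImplicit false

/-! The residue field of a compatible valuation ring. -/

namespace Pool.Agent.Helper58.EB

open Pool.Agent.Y920.EP Pool.Agent.Y705.EP

section

variable {F : Type} [Field F] {A : Type} [CommGroup A] {φ : Fˣ →* A}

/-- compatible valuation rings in which `p` is a unit -/
structure Gd (φ : Fˣ →* A) (p : ℕ) (O : ValuationSubring F) : Prop where
  pv : O.valuation (p : F) = 1
  cmp : Cmp φ O

lemma lt_one_iff (O : ValuationSubring F) {x : F} :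
    O.valuation x < 1 ↔ x = 0 ∨ x⁻¹ ∉ O := by
  by_cases hx0 : x = 0
  · simp [hx0]
  · have h0 : 0 < O.valuation x := zero_lt_iff.2 ((Valuation.ne_zero_iff _).2 hx0)
    rw [← O.valuation_le_one_iff, map_inv₀, not_le, one_lt_inv₀ h0]
    simp [hx0]

lemma pv_iff (O : ValuationSubring F) {p : ℕ} (hp : (p : F) ≠ 0) :
    O.valuation (p : F) = 1 ↔ (p : F)⁻¹ ∈ O := by
  have h0 : 0 < O.valuation (p : F) := zero_lt_iff.2 ((Valuation.ne_zero_iff _).2 hp)
  rw [← O.valuation_le_one_iff, map_inv₀, inv_le_one₀ h0]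
  exact ⟨fun h => h.ge, fun h => le_antisymm (val_natCast_le O p) h⟩

/-- there are minimal rings -/
lemma exists_min_gd {p : ℕ} (hp : (p : F) ≠ 0) :
    ∃ O : ValuationSubring F, Gd φ p O ∧ ∀ O' : ValuationSubring F, Gd φ p O' → O' ≤ O →
      O ≤ O' := by
  obtain ⟨m, hm⟩ := exists_maximal_of_chains_bounded
    (α := {O : ValuationSubring F // Gd φ p O}) (r := fun a b => b.1 ≤ a.1) (by
      intro c hc
      by_cases hne : c.Nonempty
      swap
      · rw [Set.not_nonempty_iff_eq_empty] at hne
        refine ⟨⟨⊤, ?_, ?_⟩, ?_⟩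
        · rw [pv_iff _ hp]; trivial
        · intro x hx
          rw [lt_one_iff] at hx
          rcases hx with rfl | hx
          · exact ⟨1, by rw [Units.val_one, add_zero], map_one _⟩
          · exact absurd (ValuationSubring.mem_top _) hx
        · intro a ha
          rw [hne] at ha
          exact absurd ha (Set.notMem_empty a)
      obtain ⟨o₀, ho₀⟩ := hne
      let R : ValuationSubring F :=
        { carrier := {x | ∀ o ∈ c, x ∈ o.1}
          mul_mem' := fun ha hb o ho => o.1.mul_mem _ _ (ha o ho) (hb o ho)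
          one_mem' := fun o _ => o.1.one_mem
          add_mem' := fun ha hb o ho => o.1.add_mem _ _ (ha o ho) (hb o ho)
          zero_mem' := fun o _ => o.1.zero_mem
          neg_mem' := fun ha o ho => o.1.neg_mem _ (ha o ho)
          mem_or_inv_mem' := by
            intro x
            by_contra hcon
            rw [not_or] at hcon
            obtain ⟨h1, h2⟩ := hcon
            rw [Set.mem_ofPred_eq] at h1 h2
            push Not at h1 h2
            obtain ⟨a, ha, hxa⟩ := h1
            obtain ⟨b, hb, hxb⟩ := h2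
            by_cases hab : a = b
            · rw [hab] at hxa
              rcases b.1.mem_or_inv_mem x with h | h
              · exact hxa h
              · exact hxb h
            rcases hc ha hb hab with h | h
            · -- `b ≤ a`
              have h' : b.1 ≤ a.1 := h
              rcases b.1.mem_or_inv_mem x with h3 | h3
              · exact hxa (h' h3)
              · exact hxb h3
            · have h' : a.1 ≤ b.1 := h
              rcases a.1.mem_or_inv_mem x with h3 | h3
              · exact hxa h3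
              · exact hxb (h' h3) }
      have hR : ∀ x, x ∈ R ↔ ∀ o ∈ c, x ∈ o.1 := fun x => Iff.rfl
      refine ⟨⟨R, ?_, ?_⟩, ?_⟩
      · rw [pv_iff _ hp, hR]
        intro o ho
        exact (pv_iff _ hp).1 o.2.pv
      · intro x hx
        rw [lt_one_iff] at hx
        rcases hx with rfl | hx
        · exact ⟨1, by rw [Units.val_one, add_zero], map_one _⟩
        · rw [hR] at hx
          push Not at hx
          obtain ⟨o, ho, hxo⟩ := hx
          exact o.2.cmp x ((lt_one_iff _).2 (Or.inr hxo))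
      · intro a ha x hx
        exact hx a ha)
    (fun {a b c} h1 h2 => le_trans h2 h1)
  exact ⟨m.1, m.2, fun O' hO' hle => hm ⟨O', hO'⟩ hle⟩

variable (O : ValuationSubring F)

/-- the classes of units -/
noncomputable abbrev AU (φ : Fˣ →* A) (O : ValuationSubring F) : Subgroup A := O.unitGroup.map φ

/-- the map on the units of the residue field -/
lemma exists_psi (hC : Cmp φ O) : ∃ ψ : (IsLocalRing.ResidueField O)ˣ →* AU φ O,
    ∀ u : O.unitGroup, (ψ (O.unitGroupToResidueFieldUnits u) : A) = φ u := by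
  have hs := O.surjective_unitGroupToResidueFieldUnits
  refine ⟨O.unitGroupToResidueFieldUnits.liftOfSurjective hs ⟨φ.subgroupMap O.unitGroup, ?_⟩, ?_⟩
  · rw [O.ker_unitGroupToResidueFieldUnits]
    intro u hu
    rw [Subgroup.mem_comap, ValuationSubring.mem_principalUnitGroup_iff] at hu
    obtain ⟨z, hz, hz1⟩ := hC _ hu
    rw [MonoidHom.mem_ker]
    ext
    rw [MonoidHom.subgroupMap_apply_coe, OneMemClass.coe_one, ← hz1]
    congr 1
    ext
    rw [hz, Subgroup.coe_subtype]
    ring
  · intro u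
    have h := MonoidHom.liftOfRightInverse_comp_apply O.unitGroupToResidueFieldUnits _
      (Function.rightInverse_surjInv hs) ⟨φ.subgroupMap O.unitGroup, by
        rw [O.ker_unitGroupToResidueFieldUnits]
        intro u hu
        rw [Subgroup.mem_comap, ValuationSubring.mem_principalUnitGroup_iff] at hu
        obtain ⟨z, hz, hz1⟩ := hC _ hu
        rw [MonoidHom.mem_ker]
        ext
        rw [MonoidHom.subgroupMap_apply_coe, OneMemClass.coe_one, ← hz1]
        congr 1
        ext
        rw [hz, Subgroup.coe_subtype]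
        ring⟩ u
    exact congrArg Subtype.val h

lemma lift_unit (x : (IsLocalRing.ResidueField O)ˣ) :
    ∃ u : O.unitGroup, O.unitGroupToResidueFieldUnits u = x :=
  O.surjective_unitGroupToResidueFieldUnits x

/-- the residue of a unit -/
lemma res_unit (u : O.unitGroup) :
    ((O.unitGroupToResidueFieldUnits u : (IsLocalRing.ResidueField O)ˣ) :
      IsLocalRing.ResidueField O) =
      IsLocalRing.residue O ⟨((u : Fˣ) : F), (O.unitGroupMulEquiv u : O).2⟩ := rfl

lemma mem_unitGroup_of {u : Fˣ} (h : O.valuation (u : F) = 1) : u ∈ O.unitGroup := h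

lemma residue_eq_zero_iff (x : O) :
    IsLocalRing.residue O x = 0 ↔ O.valuation (x : F) < 1 := by
  rw [IsLocalRing.residue_eq_zero_iff, ← ValuationSubring.valuation_lt_one_iff]

lemma valuation_eq_one_of (x : O) (h : IsLocalRing.residue O x ≠ 0) :
    O.valuation (x : F) = 1 := by
  rw [Ne, residue_eq_zero_iff, not_lt] at h
  exact le_antisymm (O.valuation_le_one x) h

variable {O}

lemma surj_res {ψ : (IsLocalRing.ResidueField O)ˣ →* AU φ O}
    (hψ : ∀ u : O.unitGroup, (ψ (O.unitGroupToResidueFieldUnits u) : A) = φ u) :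
    Function.Surjective ψ := by
  rintro ⟨a, u, hu, rfl⟩
  exact ⟨O.unitGroupToResidueFieldUnits ⟨u, hu⟩, Subtype.ext (hψ _)⟩

lemma neg_res (hneg : φ (-1) = 1) {ψ : (IsLocalRing.ResidueField O)ˣ →* AU φ O}
    (hψ : ∀ u : O.unitGroup, (ψ (O.unitGroupToResidueFieldUnits u) : A) = φ u) :
    ψ (-1) = 1 := by
  have h1 : (-1 : Fˣ) ∈ O.unitGroup := by
    apply mem_unitGroup_of
    rw [Units.val_neg, Units.val_one, Valuation.map_neg, map_one]
  have e : (-1 : (IsLocalRing.ResidueField O)ˣ) = O.unitGroupToResidueFieldUnits ⟨-1, h1⟩ := by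
    ext
    rw [res_unit, Units.val_neg, Units.val_one]
    have e2 : (⟨((-1 : Fˣ) : F), (O.unitGroupMulEquiv ⟨-1, h1⟩ : O).2⟩ : O) = -1 := by
      ext
      simp
    rw [e2, map_neg, map_one]
  ext
  rw [e, hψ, OneMemClass.coe_one]
  exact hneg

/-- values over the residue field are values -/
lemma vv_res {ψ : (IsLocalRing.ResidueField O)ˣ →* AU φ O}
    (hψ : ∀ u : O.unitGroup, (ψ (O.unitGroupToResidueFieldUnits u) : A) = φ u)
    {a c : AU φ O} (h : c ∈ Vv ψ a) : (c : A) ∈ Vv φ (a : A) := by
  rcases h with h | h | ⟨u, v, hu1, huv, hv1⟩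
  · exact Or.inl (by rw [h, OneMemClass.coe_one])
  · exact Or.inr (Or.inl (by rw [h]))
  · right; right
    obtain ⟨u, rfl⟩ := lift_unit O u
    have hu : O.valuation (((u : Fˣ)) : F) = 1 := u.2
    have h1 : (1 : F) + ((u : Fˣ) : F) ∈ O := by
      apply O.add_mem _ _ O.one_mem
      exact (O.valuation_le_one_iff _).1 hu.le
    have h2 : IsLocalRing.residue O ⟨1 + ((u : Fˣ) : F), h1⟩ = v := by
      rw [huv, res_unit]
      have e2 : (⟨1 + ((u : Fˣ) : F), h1⟩ : O) =
          1 + ⟨((u : Fˣ) : F), (O.unitGroupMulEquiv u : O).2⟩ := rfl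
      rw [e2, map_add, map_one]
    have h3 : O.valuation (1 + ((u : Fˣ) : F)) = 1 := by
      refine valuation_eq_one_of O ⟨1 + ((u : Fˣ) : F), h1⟩ ?_
      rw [h2]
      exact v.ne_zero
    have h4 : (1 : F) + ((u : Fˣ) : F) ≠ 0 := by
      intro e
      rw [e, map_zero] at h3
      exact zero_ne_one h3
    obtain ⟨w, hw⟩ : ∃ w : Fˣ, (w : F) = 1 + ((u : Fˣ) : F) := ⟨Units.mk0 _ h4, Units.val_mk0 _⟩
    have hwu : w ∈ O.unitGroup := by
      apply mem_unitGroup_of
      rw [hw]
      exact h3
    have e : v = O.unitGroupToResidueFieldUnits ⟨w, hwu⟩ := by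
      ext
      rw [res_unit, ← h2]
      congr 1
      ext
      exact hw.symm
    refine ⟨(u : Fˣ), w, ?_, hw, ?_⟩
    · rw [← hψ, hu1]
    · rw [← hv1, e, hψ]

lemma ball_res {M : ℕ} (hB : Ball φ M) {ψ : (IsLocalRing.ResidueField O)ˣ →* AU φ O}
    (hψ : ∀ u : O.unitGroup, (ψ (O.unitGroupToResidueFieldUnits u) : A) = φ u) :
    Ball ψ M := by
  classical
  intro a ha
  obtain ⟨E, hE, hE1, hE2⟩ := hB (a : A) (fun e => ha (Subtype.ext e))
  refine ⟨E.preimage Subtype.val (Subtype.val_injective.injOn), ?_, ?_, ?_⟩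
  · refine le_trans ?_ hE
    exact Finset.card_le_card_of_injOn Subtype.val (fun x hx => Finset.mem_preimage.1 hx)
      Subtype.val_injective.injOn
  · rw [Finset.mem_preimage]
    exact hE1
  · intro b c d h1 h2 hcd h3
    rw [Finset.mem_preimage]
    exact hE2 b c d (vv_res hψ h1) (vv_res hψ h2) (fun e => hcd (Subtype.ext e)) (vv_res hψ h3)

lemma ker_res {p : ℕ} (hp : p.Prime) (hk : ∀ u : Fˣ, φ u = 1 ↔ ∃ c : Fˣ, u = c ^ p)
    {ψ : (IsLocalRing.ResidueField O)ˣ →* AU φ O}
    (hψ : ∀ u : O.unitGroup, (ψ (O.unitGroupToResidueFieldUnits u) : A) = φ u)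
    (x : (IsLocalRing.ResidueField O)ˣ) :
    ψ x = 1 ↔ ∃ c : (IsLocalRing.ResidueField O)ˣ, x = c ^ p := by
  constructor
  · intro h
    obtain ⟨u, rfl⟩ := lift_unit O x
    have h1 := congrArg Subtype.val h
    rw [hψ, OneMemClass.coe_one, hk] at h1
    obtain ⟨c, hc⟩ := h1
    have hcu : c ∈ O.unitGroup := by
      apply mem_unitGroup_of
      have h2 : O.valuation ((u : Fˣ) : F) = 1 := u.2
      rw [hc, Units.val_pow_eq_pow_val, map_pow] at h2
      exact (pow_eq_one_iff_of_nonneg zero_le hp.ne_zero).1 h2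
    refine ⟨O.unitGroupToResidueFieldUnits ⟨c, hcu⟩, ?_⟩
    rw [← map_pow]
    congr 1
    ext
    rw [hc]
    rfl
  · rintro ⟨c, rfl⟩
    obtain ⟨u, rfl⟩ := lift_unit O c
    ext
    rw [← map_pow, hψ, OneMemClass.coe_one, hk]
    exact ⟨u, rfl⟩

lemma zeta_res {p : ℕ} (hp : p.Prime) {ζ : Fˣ} (hζ : IsPrimitiveRoot ζ p)
    (hpv : O.valuation (p : F) = 1) : ∃ ξ : (IsLocalRing.ResidueField O)ˣ, IsPrimitiveRoot ξ p := by
  have hz := val_zeta hp hζ O
  have hzu : ζ ∈ O.unitGroup := hz
  obtain ⟨ξ, hξ⟩ : ∃ ξ, ξ = O.unitGroupToResidueFieldUnits ⟨ζ, hzu⟩ := ⟨_, rfl⟩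
  have h1 : ξ ^ p = 1 := by
    rw [hξ, ← map_pow]
    have e : (⟨ζ, hzu⟩ : O.unitGroup) ^ p = 1 := by
      ext
      rw [Subgroup.coe_pow, OneMemClass.coe_one]
      exact congrArg Units.val hζ.pow_eq_one
    rw [e, map_one]
  have h2 : ξ ≠ 1 := by
    intro h
    have hzO : (ζ : F) ∈ O := (O.valuation_le_one_iff _).1 hz.le
    have h3 : IsLocalRing.residue O ⟨(ζ : F), hzO⟩ = 1 := by
      have := congrArg Units.val (hξ.symm.trans h)
      rwa [res_unit, Units.val_one] at this
    have hζF : IsPrimitiveRoot (ζ : F) p := by rwa [IsPrimitiveRoot.coe_units_iff]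
    have h4 := hζF.geom_sum_eq_zero hp.one_lt
    have h5 : ∑ i ∈ Finset.range p, (⟨(ζ : F), hzO⟩ : O) ^ i = 0 := by
      ext
      push_cast
      exact h4
    have h6 := congrArg (IsLocalRing.residue O) h5
    rw [map_sum, map_zero] at h6
    simp only [map_pow, h3, one_pow, Finset.sum_const, Finset.card_range, nsmul_eq_mul,
      mul_one] at h6
    have h7 : IsLocalRing.residue O (p : O) = 0 := by rw [map_natCast]; exact h6
    rw [residue_eq_zero_iff] at h7
    have h8 : (((p : O)) : F) = (p : F) := by push_cast; rfl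
    rw [h8, hpv] at h7
    exact lt_irrefl _ h7
  have h3 := orderOf_eq_prime_iff (x := ξ) (p := p) (hp := ⟨hp⟩)
  refine ⟨ξ, ?_⟩
  have h4 := h3.2 ⟨h1, h2⟩
  rw [← h4]
  exact IsPrimitiveRoot.orderOf ξ

/-- composition with a valuation ring of the residue field -/
lemma comp_res {p : ℕ} (hpF : (p : F) ≠ 0) (hO : Gd φ p O)
    {ψ : (IsLocalRing.ResidueField O)ˣ →* AU φ O}
    (hψ : ∀ u : O.unitGroup, (ψ (O.unitGroupToResidueFieldUnits u) : A) = φ u)
    (O₁ : ValuationSubring (IsLocalRing.ResidueField O)) (hO₁ : Gd ψ p O₁) (htop : O₁ ≠ ⊤) :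
    ∃ O' : ValuationSubring F, Gd φ p O' ∧ O' ≤ O ∧ ¬ O ≤ O' := by
  let R : ValuationSubring F :=
    { carrier := {x | ∃ h : x ∈ O, IsLocalRing.residue O ⟨x, h⟩ ∈ O₁}
      mul_mem' := by
        rintro a b ⟨ha, ha'⟩ ⟨hb, hb'⟩
        refine ⟨O.mul_mem _ _ ha hb, ?_⟩
        have := O₁.mul_mem _ _ ha' hb'
        rwa [← map_mul] at this
      one_mem' := by
        refine ⟨O.one_mem, ?_⟩
        have e : (⟨1, O.one_mem⟩ : O) = 1 := rfl
        rw [e, map_one]
        exact O₁.one_mem
      add_mem' := by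
        rintro a b ⟨ha, ha'⟩ ⟨hb, hb'⟩
        refine ⟨O.add_mem _ _ ha hb, ?_⟩
        have := O₁.add_mem _ _ ha' hb'
        rwa [← map_add] at this
      zero_mem' := by
        refine ⟨O.zero_mem, ?_⟩
        have e : (⟨0, O.zero_mem⟩ : O) = 0 := rfl
        rw [e, map_zero]
        exact O₁.zero_mem
      neg_mem' := by
        rintro a ⟨ha, ha'⟩
        refine ⟨O.neg_mem _ ha, ?_⟩
        have := O₁.neg_mem _ ha'
        rwa [← map_neg] at this
      mem_or_inv_mem' := by
        intro x
        rcases O.mem_or_inv_mem x with hx | hx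
        · by_cases h0 : IsLocalRing.residue O ⟨x, hx⟩ = 0
          · left
            refine ⟨hx, ?_⟩
            rw [h0]
            exact O₁.zero_mem
          · have h1 := valuation_eq_one_of O _ h0
            have hx0 : x ≠ 0 := by
              rintro rfl
              rw [map_zero] at h1
              exact zero_ne_one h1
            have hxi : x⁻¹ ∈ O := by
              rw [← O.valuation_le_one_iff, map_inv₀, h1, inv_one]
            have e : IsLocalRing.residue O ⟨x⁻¹, hxi⟩ = (IsLocalRing.residue O ⟨x, hx⟩)⁻¹ := by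
              apply eq_inv_of_mul_eq_one_left
              rw [← map_mul]
              have e2 : (⟨x⁻¹, hxi⟩ : O) * ⟨x, hx⟩ = 1 := by
                ext
                exact inv_mul_cancel₀ hx0
              rw [e2, map_one]
            rcases O₁.mem_or_inv_mem (IsLocalRing.residue O ⟨x, hx⟩) with h | h
            · exact Or.inl ⟨hx, h⟩
            · right
              refine ⟨hxi, ?_⟩
              rw [e]
              exact h
        · by_cases h0 : IsLocalRing.residue O ⟨x⁻¹, hx⟩ = 0
          · right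
            refine ⟨hx, ?_⟩
            rw [h0]
            exact O₁.zero_mem
          · have h1 := valuation_eq_one_of O _ h0
            have hx0 : x ≠ 0 := by
              rintro rfl
              simp only [inv_zero, map_zero] at h1
              exact zero_ne_one h1
            have hxi : x ∈ O := by
              simp only [map_inv₀, inv_eq_one] at h1
              rw [← O.valuation_le_one_iff, h1]
            have e : IsLocalRing.residue O ⟨x, hxi⟩ = (IsLocalRing.residue O ⟨x⁻¹, hx⟩)⁻¹ := by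
              apply eq_inv_of_mul_eq_one_left
              rw [← map_mul]
              have e2 : (⟨x, hxi⟩ : O) * ⟨x⁻¹, hx⟩ = 1 := by
                ext
                exact mul_inv_cancel₀ hx0
              rw [e2, map_one]
            rcases O₁.mem_or_inv_mem (IsLocalRing.residue O ⟨x⁻¹, hx⟩) with h | h
            · exact Or.inr ⟨hx, h⟩
            · left
              refine ⟨hxi, ?_⟩
              rw [e]
              exact h }
  have hR : ∀ x, x ∈ R ↔ ∃ h : x ∈ O, IsLocalRing.residue O ⟨x, h⟩ ∈ O₁ := fun x => Iff.rfl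
  have hpi : (p : F)⁻¹ ∈ O := (pv_iff O hpF).1 hO.pv
  have hpκ : (p : IsLocalRing.ResidueField O) ≠ 0 := by
    intro e
    have h1 := hO₁.pv
    rw [e, map_zero] at h1
    exact zero_ne_one h1
  refine ⟨R, ⟨?_, ?_⟩, ?_, ?_⟩
  · rw [pv_iff _ hpF, hR]
    refine ⟨hpi, ?_⟩
    have e : IsLocalRing.residue O ⟨(p : F)⁻¹, hpi⟩ = (p : IsLocalRing.ResidueField O)⁻¹ := by
      apply eq_inv_of_mul_eq_one_left
      have e1 : (p : IsLocalRing.ResidueField O) = IsLocalRing.residue O (p : O) := by
        rw [map_natCast]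
      rw [e1, ← map_mul]
      have e2 : (⟨(p : F)⁻¹, hpi⟩ : O) * (p : O) = 1 := by
        ext
        push_cast
        exact inv_mul_cancel₀ hpF
      rw [e2, map_one]
    rw [e]
    exact (pv_iff _ hpκ).1 hO₁.pv
  · intro x hx
    by_cases hxO : O.valuation x < 1
    · exact hO.cmp x hxO
    rw [lt_one_iff] at hx
    rcases hx with rfl | hx
    · exact ⟨1, by rw [Units.val_one, add_zero], map_one _⟩
    have hx0 : x ≠ 0 := by
      rintro rfl
      apply hx
      rw [inv_zero]
      exact R.zero_mem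
    have hxR : x ∈ R := by
      rcases R.mem_or_inv_mem x with h | h
      · exact h
      · exact absurd h hx
    obtain ⟨hxO', hx1⟩ := (hR x).1 hxR
    have hv : O.valuation x = 1 :=
      le_antisymm ((O.valuation_le_one_iff x).2 hxO') (not_lt.1 hxO)
    have hxi : x⁻¹ ∈ O := by
      rw [← O.valuation_le_one_iff, map_inv₀, hv, inv_one]
    have h0 : IsLocalRing.residue O ⟨x, hxO'⟩ ≠ 0 := by
      rw [Ne, residue_eq_zero_iff]
      exact hxO
    have e : IsLocalRing.residue O ⟨x⁻¹, hxi⟩ = (IsLocalRing.residue O ⟨x, hxO'⟩)⁻¹ := by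
      apply eq_inv_of_mul_eq_one_left
      rw [← map_mul]
      have e2 : (⟨x⁻¹, hxi⟩ : O) * ⟨x, hxO'⟩ = 1 := by
        ext
        exact inv_mul_cancel₀ hx0
      rw [e2, map_one]
    have h2 : (IsLocalRing.residue O ⟨x, hxO'⟩)⁻¹ ∉ O₁ := by
      intro h
      apply hx
      rw [hR]
      refine ⟨hxi, ?_⟩
      rw [e]
      exact h
    obtain ⟨z, hz, hz1⟩ := hO₁.cmp _ ((lt_one_iff _).2 (Or.inr h2))
    obtain ⟨u, rfl⟩ := lift_unit O z
    have h3 := congrArg Subtype.val hz1
    rw [hψ, OneMemClass.coe_one] at h3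
    -- `u` and `1 + x` have the same residue
    have h4 : O.valuation ((1 + x) - ((u : Fˣ) : F)) < 1 := by
      have h5 : (1 + x) - ((u : Fˣ) : F) ∈ O := by
        refine O.toSubring.sub_mem (O.add_mem _ _ O.one_mem hxO') (O.unitGroupMulEquiv u : O).2
      have h6 := residue_eq_zero_iff O ⟨_, h5⟩
      rw [← h6]
      have e2 : (⟨(1 + x) - ((u : Fˣ) : F), h5⟩ : O) =
          1 + ⟨x, hxO'⟩ - ⟨((u : Fˣ) : F), (O.unitGroupMulEquiv u : O).2⟩ := rfl
      rw [e2, map_sub, map_add, map_one, ← hz, res_unit, sub_self]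
    have hu : O.valuation ((u : Fˣ) : F) = 1 := u.2
    obtain ⟨w, hw, hw1⟩ := hO.cmp (((1 + x) - ((u : Fˣ) : F)) / ((u : Fˣ) : F)) (by
      rw [map_div₀, hu, div_one]
      exact h4)
    refine ⟨u * w, ?_, by rw [map_mul, h3, hw1, one_mul]⟩
    have hu0 : ((u : Fˣ) : F) ≠ 0 := Units.ne_zero _
    rw [Units.val_mul, hw]
    field_simp
    ring
  · intro x hx
    exact ((hR x).1 hx).1
  · intro hle
    apply htop
    rw [eq_top_iff]
    intro y _
    obtain ⟨x, rfl⟩ := IsLocalRing.residue_surjective y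
    obtain ⟨h1, h2⟩ := (hR x.1).1 (hle x.2)
    exact h2

end

end Pool.Agent.Helper58.EB
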