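import Mathlib
import Pool.Agent.Helper58.EB.Res
import Pool.Graph.R_pool_sql_team_seeded_3997aac3.Q10.EPV.FieldV

set_option autoImplicit false

/-! Fields with small balls of radius two. -/

namespace Pool.Agent.Helper58.EB

open Pool.Agent.Y920.EP Pool.Agent.Y705.EP Pool.Agent.Q10.EPV

section

variable {F : Type} [Field F] {A : Type} [CommGroup A] {φ : Fˣ →* A}

/-- there are few value classes -/
lemma val_classes {p : ℕ} (hp : p.Prime) {M : ℕ} 
    (hB : Ball φ M) (hk : ∀ u : Fˣ, φ u = 1 ↔ ∃ c : Fˣ, u = c ^ p) (a : Fˣ)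
    (ha : a ∉ pwG F p) :
    ((QuotientGroup.mk' (pwG F p)) '' valS p a).Finite ∧
      ((QuotientGroup.mk' (pwG F p)) '' valS p a).ncard ≤ M := by
  have ha1 : φ a ≠ 1 := by
    rw [Ne, hk, ← mem_pwG]
    exact ha
  obtain ⟨E, hE, hE1, hE2⟩ := hB _ ha1
  obtain ⟨f, hfd⟩ : ∃ f : Fˣ ⧸ pwG F p →* A, ∀ x : Fˣ, f (QuotientGroup.mk' (pwG F p) x) = φ x :=
    ⟨QuotientGroup.lift (pwG F p) φ fun x hx => (hk x).2 (mem_pwG.1 hx), fun x => rfl⟩
  have hinj : Function.Injective f := by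
    rw [injective_iff_map_eq_one]
    intro x hx
    obtain ⟨x, rfl⟩ := QuotientGroup.mk'_surjective _ x
    rw [hfd, hk, ← mem_pwG] at hx
    exact (QuotientGroup.eq_one_iff x).2 hx
  have hV : Vv φ (φ a) ⊆ E := by
    intro c hc
    by_cases hc1 : c = 1
    · rw [hc1]; exact hE1
    · refine hE2 c c 1 hc (Or.inl rfl) hc1 ?_
      rw [div_one]
      exact Or.inr (Or.inl rfl)
  have hsub : f '' ((QuotientGroup.mk' (pwG F p)) '' valS p a) ⊆ (E : Set A) := by
    rintro _ ⟨_, ⟨c, ⟨x, y, hxy⟩, rfl⟩, rfl⟩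
    rw [hfd]
    apply hV
    by_cases hx : x = 0
    · -- `c = a y ^ p`
      rw [hx, zero_pow hp.ne_zero, zero_add] at hxy
      have hy : y ≠ 0 := by
        rintro rfl
        rw [zero_pow hp.ne_zero, mul_zero] at hxy
        exact c.ne_zero hxy
      have e : c = a * (Units.mk0 y hy) ^ p := by
        ext
        rw [hxy, Units.val_mul, Units.val_pow_eq_pow_val, Units.val_mk0]
      rw [e, map_mul, (hk ((Units.mk0 y hy) ^ p)).2 ⟨_, rfl⟩, mul_one]
      exact Or.inr (Or.inl rfl)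
    by_cases hy : y = 0
    · rw [hy, zero_pow hp.ne_zero, mul_zero, add_zero] at hxy
      have e : c = (Units.mk0 x hx) ^ p := by
        ext
        rw [hxy, Units.val_pow_eq_pow_val, Units.val_mk0]
      rw [e, (hk ((Units.mk0 x hx) ^ p)).2 ⟨_, rfl⟩]
      exact Or.inl rfl
    · right; right
      refine ⟨a * (Units.mk0 y hy / Units.mk0 x hx) ^ p, c / (Units.mk0 x hx) ^ p, ?_, ?_, ?_⟩
      · rw [map_mul, (hk ((Units.mk0 y hy / Units.mk0 x hx) ^ p)).2 ⟨_, rfl⟩, mul_one]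
      · rw [Units.val_div_eq_div_val, Units.val_pow_eq_pow_val, Units.val_mul,
          Units.val_pow_eq_pow_val, Units.val_div_eq_div_val, Units.val_mk0, Units.val_mk0, hxy,
          div_pow]
        have hxp : x ^ p ≠ 0 := pow_ne_zero _ hx
        field_simp
      · rw [map_div, (hk ((Units.mk0 x hx) ^ p)).2 ⟨_, rfl⟩, div_one]
  have hfin : (f '' ((QuotientGroup.mk' (pwG F p)) '' valS p a)).Finite :=
    E.finite_toSet.subset hsub
  refine ⟨hfin.of_finite_image hinj.injOn, ?_⟩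
  rw [← Set.ncard_image_of_injective _ hinj]
  refine (Set.ncard_le_ncard hsub E.finite_toSet).trans ?_
  rw [Set.ncard_coe_finset]
  exact hE

/-- if the only compatible ring is the field itself then there are finitely many classes -/
lemma finite_of {p : ℕ} (hp : p.Prime) (hp2 : p ≠ 2) {ζ : Fˣ} (hζ : IsPrimitiveRoot ζ p)
    {M : ℕ} (hφ : Function.Surjective φ) (hB : Ball φ M)
    (hk : ∀ u : Fˣ, φ u = 1 ↔ ∃ c : Fˣ, u = c ^ p)
    (hmin : ∀ O : ValuationSubring F, Gd φ p O → O = ⊤) : Finite A := by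
  have hζF : ∃ ζ : F, IsPrimitiveRoot ζ p := ⟨ζ, by rwa [IsPrimitiveRoot.coe_units_iff]⟩
  have hpF : (p : F) ≠ 0 := by
    have : NeZero p := ⟨hp.ne_zero⟩
    obtain ⟨z, hz⟩ := hζF
    exact hz.neZero'.ne
  obtain ⟨k, hk'⟩ : ∃ k : ℕ, 2 * (M + 1) ≤ p ^ k := by
    refine ⟨2 * (M + 1), ?_⟩
    exact (Nat.lt_pow_self hp.one_lt).le
  obtain ⟨H, O, h1, h2, h3, h4, h5⟩ := exists_ringV p hp hp2 F hζF (M + 1) k (by omega) hk'
    fun a ha => by
      obtain ⟨h6, h7⟩ := val_classes hp hB hk a ha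
      exact ⟨h6, h7.trans (Nat.le_succ M)⟩
  have hO : O = ⊤ := by
    apply hmin
    refine ⟨(pv_iff O hpF).2 h5.1, ?_⟩
    intro x hx
    have hxO : x ∈ O := (O.valuation_le_one_iff _).1 hx.le
    rw [lt_one_iff] at hx
    rcases hx with rfl | hx
    · exact ⟨1, by rw [Units.val_one, add_zero], map_one _⟩
    obtain ⟨y, hy⟩ := h5.2.2 x hxO hx
    have hy0 : y ≠ 0 := by
      rintro rfl
      rw [zero_pow hp.ne_zero] at hy
      apply hx
      have : x = -1 := by linear_combination (-1) * hy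
      rw [this, inv_neg, inv_one]
      exact O.neg_mem _ O.one_mem
    refine ⟨(Units.mk0 y hy0) ^ p, ?_, (hk _).2 ⟨_, rfl⟩⟩
    rw [Units.val_pow_eq_pow_val, Units.val_mk0, hy]
  have hH : H = ⊤ := by
    rw [eq_top_iff]
    intro u _
    apply h4
    rw [hO]
    refine le_antisymm ?_ ?_
    · exact ((⊤ : ValuationSubring F).valuation_le_one_iff _).2 (ValuationSubring.mem_top _)
    · have h6 := ((⊤ : ValuationSubring F).valuation_le_one_iff ((u : F)⁻¹)).2
        (ValuationSubring.mem_top _)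
      rw [map_inv₀] at h6
      exact (inv_le_one₀ (val_pos ⊤ u)).1 h6
  rw [hH, Subgroup.relIndex_top_right] at h2
  have hfi : (pwG F p).FiniteIndex := ⟨h2⟩
  have hfin : Finite (Fˣ ⧸ pwG F p) := Subgroup.finite_quotient_of_finiteIndex
  have h8 : ∀ x ∈ pwG F p, φ x = 1 := fun x hx => (hk x).2 (mem_pwG.1 hx)
  refine Finite.of_surjective (QuotientGroup.lift (pwG F p) φ h8) ?_
  intro a
  obtain ⟨u, rfl⟩ := hφ a
  exact ⟨QuotientGroup.mk' _ u, rfl⟩

/-- The main theorem, abstract form. -/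
theorem main {p : ℕ} (hp : p.Prime) (hp2 : p ≠ 2) {ζ : Fˣ} (hζ : IsPrimitiveRoot ζ p)
    {M : ℕ} (hneg : φ (-1) = 1) (hB : Ball φ M)
    (hk : ∀ u : Fˣ, φ u = 1 ↔ ∃ c : Fˣ, u = c ^ p) :
    ∃ O : ValuationSubring F, Gd φ p O ∧ Finite (AU φ O) ∧
      Nat.card (AU φ O) ≤ max p (38 * M + 1) := by
  have hpF : (p : F) ≠ 0 := by
    have : NeZero p := ⟨hp.ne_zero⟩
    have hζ' : IsPrimitiveRoot (ζ : F) p := by rwa [IsPrimitiveRoot.coe_units_iff]
    exact hζ'.neZero'.ne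
  obtain ⟨O, hO, hmin⟩ := exists_min_gd (φ := φ) hpF
  obtain ⟨ψ, hψ⟩ := exists_psi O hO.cmp
  have hsurj := surj_res hψ
  have hB' := ball_res hB hψ
  have hk' := ker_res hp hk hψ
  obtain ⟨ξ, hξ⟩ := zeta_res hp hζ hO.pv
  have htop : ∀ O₁ : ValuationSubring (IsLocalRing.ResidueField O), Gd ψ p O₁ → O₁ = ⊤ := by
    intro O₁ hO₁
    by_contra hne
    obtain ⟨O', h1, h2, h3⟩ := comp_res hpF hO hψ O₁ hO₁ hne
    exact h3 (hmin O' h1 h2)
  have hfin : Finite (AU φ O) := finite_of hp hp2 hξ hsurj hB' hk' htop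
  refine ⟨O, hO, hfin, ?_⟩
  rcases dich hp hp2 hξ hsurj (neg_res hneg hψ) hB' hk' with ⟨O₁, h1, h2, h3⟩ | h
  · exact absurd (htop O₁ ⟨h2, h3⟩) h1
  · exact h

end

end Pool.Agent.Helper58.EB
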